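import Mathlib

set_option autoImplicit false

namespace Pool.Agent.H537Z.EH

open PowerSeries

variable {α : Type} [AddCommGroup α]

/-- generating function of a graded family of finite sets -/
noncomputable def gf (p : ℤ → α → Prop) : PowerSeries ℤ :=
  PowerSeries.mk fun m : ℕ => (({x | p (m : ℤ) x}.ncard : ℕ) : ℤ)

/-- finite fibres, empty in negative degree -/
def Ok (p : ℤ → α → Prop) : Prop := (∀ m, {x | p m x}.Finite) ∧ ∀ m x, p m x → 0 ≤ m

omit [AddCommGroup α] in
theorem Ok.mono {p q : ℤ → α → Prop} (hp : Ok p) (h : ∀ m x, q m x → p m x) : Ok q :=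
  ⟨fun m => (hp.1 m).subset (fun x hx => h m x hx), fun m x hx => hp.2 m x (h m x hx)⟩

omit [AddCommGroup α] in
theorem gf_congr {p q : ℤ → α → Prop} (h : ∀ m x, p m x ↔ q m x) : gf p = gf q := by
  have : p = q := by funext m x; exact propext (h m x)
  rw [this]

omit [AddCommGroup α] in
theorem gf_split {p q r : ℤ → α → Prop} (hp : Ok p) (h : ∀ m x, p m x ↔ q m x ∨ r m x)
    (hd : ∀ m x, q m x → r m x → False) : gf p = gf q + gf r := by
  ext m
  simp only [gf, map_add, coeff_mk]
  have e : {x | p (m : ℤ) x} = {x | q (m : ℤ) x} ∪ {x | r (m : ℤ) x} := by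
    ext x; simp only [Set.mem_ofPred_eq, Set.mem_union]; exact h _ x
  have hf := hp.1 (m : ℤ)
  rw [e] at hf ⊢
  have hdis : Disjoint {x | q (m : ℤ) x} {x | r (m : ℤ) x} :=
    Set.disjoint_left.2 (fun x h1 h2 => hd _ x h1 h2)
  rw [Set.ncard_union_eq hdis
    (hf.subset Set.subset_union_left) (hf.subset Set.subset_union_right)]
  push_cast; rfl

theorem gf_shift {p q : ℤ → α → Prop} (hq : ∀ m x, q m x → 0 ≤ m) (h : ℕ) (v : α)
    (H : ∀ m x, p m x ↔ q (m - h) (x - v)) : gf p = X ^ h * gf q := by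
  ext m
  rw [coeff_X_pow_mul']
  simp only [gf, coeff_mk]
  split_ifs with hm
  · have e : {x | p (m : ℤ) x} = (fun y => y + v) '' {x | q ((m - h : ℕ) : ℤ) x} := by
      ext x
      simp only [Set.mem_ofPred_eq, Set.mem_image, H, Nat.cast_sub hm]
      constructor
      · intro hx; exact ⟨x - v, hx, by simp⟩
      · rintro ⟨y, hy, rfl⟩; simpa using hy
    rw [e, Set.ncard_image_of_injective _ (add_left_injective v)]
  · have e : {x | p (m : ℤ) x} = ∅ := by
      ext x
      simp only [Set.mem_ofPred_eq, Set.mem_empty_iff_false, iff_false, H]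
      intro hx
      have := hq _ _ hx
      omega
    rw [e]; simp

theorem gf_peel {p q : ℤ → α → Prop} (hp : Ok p) (h : ℕ) (v : α)
    (H : ∀ m x, p m x ↔ q m x ∨ p (m - h) (x - v))
    (hd : ∀ m x, q m x → p (m - h) (x - v) → False) : gf p * (1 - X ^ h) = gf q := by
  have h1 := gf_split (r := fun m x => p (m - h) (x - v)) hp H hd
  have h2 : gf (fun m x => p (m - h) (x - v)) = X ^ h * gf p :=
    gf_shift hp.2 h v (fun _ _ => Iff.rfl)
  rw [h2] at h1
  linear_combination h1

omit [AddCommGroup α] in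
theorem gf_point {p : ℤ → α → Prop} (h : ℕ) (v : α) (H : ∀ m x, p m x ↔ m = h ∧ x = v) :
    gf p = X ^ h := by
  ext m
  simp only [gf, coeff_mk, coeff_X_pow, H]
  split_ifs with hm
  · subst hm
    have : {x | ((m : ℕ) : ℤ) = m ∧ x = v} = {v} := by ext x; simp
    rw [this]; simp
  · have : {x | ((m : ℕ) : ℤ) = h ∧ x = v} = ∅ := by
      ext x; simp only [Set.mem_ofPred_eq, Set.mem_empty_iff_false, iff_false, not_and]
      intro h1; exact absurd (by exact_mod_cast h1) hm
    rw [this]; simp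

theorem cancel {F D H E : PowerSeries ℤ} (hE : constantCoeff E = 1) (h : D * F * E = H * E) :
    D * F = H := by
  have : E ≠ 0 := by
    intro h0; rw [h0] at hE; simp at hE
  exact mul_right_cancel₀ this h

theorem coeff_conv (D : Polynomial ℤ) (N : ℕ → ℤ) (i : ℕ) :
    ∑ j ∈ Finset.range (i + 1), D.coeff j * N (i - j) =
      coeff i ((D : PowerSeries ℤ) * PowerSeries.mk N) := by
  rw [coeff_mul, Finset.Nat.sum_antidiagonal_eq_sum_range_succ
    (fun a b => coeff a (D : PowerSeries ℤ) * coeff b (PowerSeries.mk N))]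
  simp [Polynomial.coeff_coe]

end Pool.Agent.H537Z.EH
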