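import Mathlib
import Pool.Agent.H537Z.EH.Gf

set_option autoImplicit false

namespace Pool.Agent.H537Z.EH

open PowerSeries

abbrev PA := ℤ → ℤ → ℤ → ℤ → ℤ → Prop
abbrev PB := ℤ → ℤ → ℤ → ℤ → Prop

/-- the join of a condition on the first five and one on the last three coordinates -/
def J (A : PA) (B : PB) : ℤ → (Fin 8 → ℤ) → Prop :=
  fun m x => A (x 0) (x 1) (x 2) (x 3) (x 4) ∧ B (m - x 0) (x 5) (x 6) (x 7)

/-- cone over the product of a segment and a tetrahedron -/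
def A0 : PA := fun i a x y z => 0 ≤ a ∧ a ≤ i ∧ 0 ≤ x ∧ 0 ≤ y ∧ 0 ≤ z ∧ x + y + z ≤ i

/-- cone over the simplex with vertices (1,-1,-1), (-1,-1,-1), (0,1,0), (0,0,1) -/
def B0 : PB := fun j a b c => 0 ≤ j - b - c + 3 * a ∧ 0 ≤ j - b - c - 3 * a ∧
  0 ≤ j + 2 * b - c ∧ 0 ≤ j - b + 2 * c

def BZ : PB := fun j a b c => j = 0 ∧ a = 0 ∧ b = 0 ∧ c = 0

theorem ok0 : Ok (J A0 B0) := by
  constructor
  · intro m
    refine (Set.finite_Icc (fun _ : Fin 8 => -m) (fun _ => m)).subset ?_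
    intro x hx
    simp only [J, A0, B0, Set.mem_ofPred_eq] at hx
    constructor <;> intro k <;> fin_cases k <;> simp <;> omega
  · intro m x hx
    simp only [J, A0, B0] at hx
    omega

theorem okJ {A : PA} {B : PB} (hA : ∀ i a x y z, A i a x y z → A0 i a x y z)
    (hB : ∀ j a b c, B j a b c → B0 j a b c) : Ok (J A B) :=
  ok0.mono (fun _ _ h => ⟨hA _ _ _ _ _ h.1, hB _ _ _ _ h.2⟩)

theorem BZ_sub : ∀ j a b c, BZ j a b c → B0 j a b c := by
  intro j a b c; simp only [BZ, B0]; omega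

theorem peelB {A : PA} {B B' : PB} (ok : Ok (J A B)) (h : ℕ) (u v w : ℤ)
    (H : ∀ j a b c, B j a b c ↔ B' j a b c ∨ B (j - h) (a - u) (b - v) (c - w))
    (hd : ∀ j a b c, B' j a b c → B (j - h) (a - u) (b - v) (c - w) → False) :
    gf (J A B) * (1 - X ^ h) = gf (J A B') := by
  have e : ∀ m y : ℤ, m - h - y = m - y - h := fun m y => by ring
  refine gf_peel ok h ![0, 0, 0, 0, 0, u, v, w] ?_ ?_
  · intro m x
    simp only [J, Pi.sub_apply, Matrix.cons_val, Matrix.cons_val_zero, Matrix.cons_val_one,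
      sub_zero, e]
    rw [H]; tauto
  · intro m x
    simp only [J, Pi.sub_apply, Matrix.cons_val, Matrix.cons_val_zero, Matrix.cons_val_one,
      sub_zero, e]
    exact fun h1 h2 => hd _ _ _ _ h1.2 h2.2

theorem splitB {A : PA} {B B1 B2 : PB} (ok : Ok (J A B))
    (H : ∀ j a b c, B j a b c ↔ B1 j a b c ∨ B2 j a b c)
    (hd : ∀ j a b c, B1 j a b c → B2 j a b c → False) :
    gf (J A B) = gf (J A B1) + gf (J A B2) := by
  refine gf_split ok ?_ ?_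
  · intro m x; simp only [J]; rw [H]; tauto
  · intro m x h1 h2; exact hd _ _ _ _ h1.2 h2.2

theorem ptB {A : PA} {B : PB} (hA : ∀ i a x y z, A i a x y z → A0 i a x y z) (h : ℕ) (u v w : ℤ)
    (H : ∀ j a b c, B j a b c ↔ j = h ∧ a = u ∧ b = v ∧ c = w) :
    gf (J A B) = X ^ h * gf (J A BZ) := by
  have e : ∀ m y : ℤ, m - h - y = m - y - h := fun m y => by ring
  refine gf_shift (okJ hA BZ_sub).2 h ![0, 0, 0, 0, 0, u, v, w] ?_
  intro m x
  simp only [J, BZ, Pi.sub_apply, Matrix.cons_val, Matrix.cons_val_zero, Matrix.cons_val_one,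
    sub_zero, e]
  rw [H]
  simp only [sub_eq_zero]

theorem peelA {A A' : PA} (hA : ∀ i a x y z, A i a x y z → A0 i a x y z) (h : ℕ) (t u v w : ℤ)
    (H : ∀ i a x y z, A i a x y z ↔ A' i a x y z ∨ A (i - h) (a - t) (x - u) (y - v) (z - w))
    (hd : ∀ i a x y z, A' i a x y z → A (i - h) (a - t) (x - u) (y - v) (z - w) → False) :
    gf (J A BZ) * (1 - X ^ h) = gf (J A' BZ) := by
  have e : ∀ m y : ℤ, m - h - (y - h) = m - y := fun m y => by ring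
  refine gf_peel (okJ hA BZ_sub) h ![h, t, u, v, w, 0, 0, 0] ?_ ?_
  · intro m x
    simp only [J, Pi.sub_apply, Matrix.cons_val, Matrix.cons_val_zero, Matrix.cons_val_one,
      sub_zero, e]
    rw [H]; tauto
  · intro m x
    simp only [J, Pi.sub_apply, Matrix.cons_val, Matrix.cons_val_zero, Matrix.cons_val_one,
      sub_zero, e]
    exact fun h1 h2 => hd _ _ _ _ _ h1.1 h2.1

theorem splitA {A A1 A2 : PA} (hA : ∀ i a x y z, A i a x y z → A0 i a x y z)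
    (H : ∀ i a x y z, A i a x y z ↔ A1 i a x y z ∨ A2 i a x y z)
    (hd : ∀ i a x y z, A1 i a x y z → A2 i a x y z → False) :
    gf (J A BZ) = gf (J A1 BZ) + gf (J A2 BZ) := by
  refine gf_split (okJ hA BZ_sub) ?_ ?_
  · intro m x; simp only [J]; rw [H]; tauto
  · intro m x h1 h2; exact hd _ _ _ _ _ h1.1 h2.1

theorem ptA {A : PA} (h : ℕ) (t u v w : ℤ)
    (H : ∀ i a x y z, A i a x y z ↔ i = h ∧ a = t ∧ x = u ∧ y = v ∧ z = w) :
    gf (J A BZ) = X ^ h := by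
  refine gf_point h ![h, t, u, v, w, 0, 0, 0] ?_
  intro m x
  simp only [J, BZ]
  rw [H]
  constructor
  · rintro ⟨⟨h0, h1, h2, h3, h4⟩, h5, h6, h7, h8⟩
    refine ⟨by omega, ?_⟩
    funext k
    fin_cases k <;> simp [*]
  · rintro ⟨h0, rfl⟩
    simp [h0]

theorem gfQ {A : PA} (hA : ∀ i a x y z, A i a x y z → A0 i a x y z) :
    gf (J A B0) * (1 - X) ^ 4 = (1 + 2 * X + 2 * X ^ 2 + X ^ 3) * gf (J A BZ) := by
  have h1 := peelB (A := A) (B := B0)
    (B' := fun j a b c => B0 j a b c ∧ j - b - c + 3 * a < 6)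
    (okJ hA (fun _ _ _ _ h => h)) 1 1 (-1) (-1)
    (by intro j a b c; simp only [B0]; omega) (by intro j a b c; simp only [B0]; omega)
  have h2 := peelB (A := A) (B := fun j a b c => B0 j a b c ∧ j - b - c + 3 * a < 6)
    (B' := fun j a b c => B0 j a b c ∧ j - b - c + 3 * a < 6 ∧ j - b - c - 3 * a < 6)
    (okJ hA (fun _ _ _ _ h => h.1)) 1 (-1) (-1) (-1)
    (by intro j a b c; simp only [B0]; omega) (by intro j a b c; simp only [B0]; omega)
  have h3 := peelB (A := A)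
    (B := fun j a b c => B0 j a b c ∧ j - b - c + 3 * a < 6 ∧ j - b - c - 3 * a < 6)
    (B' := fun j a b c => B0 j a b c ∧ j - b - c + 3 * a < 6 ∧ j - b - c - 3 * a < 6 ∧
      j + 2 * b - c < 3)
    (okJ hA (fun _ _ _ _ h => h.1)) 1 0 1 0
    (by intro j a b c; simp only [B0]; omega) (by intro j a b c; simp only [B0]; omega)
  have h4 := peelB (A := A)
    (B := fun j a b c => B0 j a b c ∧ j - b - c + 3 * a < 6 ∧ j - b - c - 3 * a < 6 ∧
      j + 2 * b - c < 3)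
    (B' := fun j a b c => a = 0 ∧ ((b = 0 ∧ c = 0 ∧ 0 ≤ j ∧ j ≤ 2) ∨
      (b = -1 ∧ c = -1 ∧ 1 ≤ j ∧ j ≤ 3)))
    (okJ hA (fun _ _ _ _ h => h.1)) 1 0 0 1
    (by intro j a b c; simp only [B0]; omega) (by intro j a b c; simp only [B0]; omega)
  have s1 := splitB (A := A)
    (B := fun j a b c => a = 0 ∧ ((b = 0 ∧ c = 0 ∧ 0 ≤ j ∧ j ≤ 2) ∨
      (b = -1 ∧ c = -1 ∧ 1 ≤ j ∧ j ≤ 3)))
    (B1 := fun j a b c => a = 0 ∧ b = 0 ∧ c = 0 ∧ 0 ≤ j ∧ j ≤ 2)
    (B2 := fun j a b c => a = 0 ∧ b = -1 ∧ c = -1 ∧ 1 ≤ j ∧ j ≤ 3)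
    (okJ hA (by intro j a b c; simp only [B0]; omega))
    (by intro j a b c; omega) (by intro j a b c; omega)
  have s2 := splitB (A := A)
    (B := fun j a b c => a = 0 ∧ b = 0 ∧ c = 0 ∧ 0 ≤ j ∧ j ≤ 2)
    (B1 := fun j a b c => a = 0 ∧ b = 0 ∧ c = 0 ∧ j = 0)
    (B2 := fun j a b c => a = 0 ∧ b = 0 ∧ c = 0 ∧ 1 ≤ j ∧ j ≤ 2)
    (okJ hA (by intro j a b c; simp only [B0]; omega))
    (by intro j a b c; omega) (by intro j a b c; omega)
  have s3 := splitB (A := A)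
    (B := fun j a b c => a = 0 ∧ b = 0 ∧ c = 0 ∧ 1 ≤ j ∧ j ≤ 2)
    (B1 := fun j a b c => a = 0 ∧ b = 0 ∧ c = 0 ∧ j = 1)
    (B2 := fun j a b c => a = 0 ∧ b = 0 ∧ c = 0 ∧ j = 2)
    (okJ hA (by intro j a b c; simp only [B0]; omega))
    (by intro j a b c; omega) (by intro j a b c; omega)
  have s4 := splitB (A := A)
    (B := fun j a b c => a = 0 ∧ b = -1 ∧ c = -1 ∧ 1 ≤ j ∧ j ≤ 3)
    (B1 := fun j a b c => a = 0 ∧ b = -1 ∧ c = -1 ∧ j = 1)
    (B2 := fun j a b c => a = 0 ∧ b = -1 ∧ c = -1 ∧ 2 ≤ j ∧ j ≤ 3)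
    (okJ hA (by intro j a b c; simp only [B0]; omega))
    (by intro j a b c; omega) (by intro j a b c; omega)
  have s5 := splitB (A := A)
    (B := fun j a b c => a = 0 ∧ b = -1 ∧ c = -1 ∧ 2 ≤ j ∧ j ≤ 3)
    (B1 := fun j a b c => a = 0 ∧ b = -1 ∧ c = -1 ∧ j = 2)
    (B2 := fun j a b c => a = 0 ∧ b = -1 ∧ c = -1 ∧ j = 3)
    (okJ hA (by intro j a b c; simp only [B0]; omega))
    (by intro j a b c; omega) (by intro j a b c; omega)
  have p1 := ptB hA (B := fun j a b c => a = 0 ∧ b = 0 ∧ c = 0 ∧ j = 0) 0 0 0 0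
    (by intro j a b c; omega)
  have p2 := ptB hA (B := fun j a b c => a = 0 ∧ b = 0 ∧ c = 0 ∧ j = 1) 1 0 0 0
    (by intro j a b c; omega)
  have p3 := ptB hA (B := fun j a b c => a = 0 ∧ b = 0 ∧ c = 0 ∧ j = 2) 2 0 0 0
    (by intro j a b c; omega)
  have p4 := ptB hA (B := fun j a b c => a = 0 ∧ b = -1 ∧ c = -1 ∧ j = 1) 1 0 (-1) (-1)
    (by intro j a b c; omega)
  have p5 := ptB hA (B := fun j a b c => a = 0 ∧ b = -1 ∧ c = -1 ∧ j = 2) 2 0 (-1) (-1)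
    (by intro j a b c; omega)
  have p6 := ptB hA (B := fun j a b c => a = 0 ∧ b = -1 ∧ c = -1 ∧ j = 3) 3 0 (-1) (-1)
    (by intro j a b c; omega)
  rw [s1, s2, s3, s4, s5, p1, p2, p3, p4, p5, p6] at h4
  rw [← h3, ← h2, ← h1] at h4
  linear_combination h4

end Pool.Agent.H537Z.EH
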