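import Mathlib
import Pool.Agent.H537Z.EH.Join

set_option autoImplicit false

namespace Pool.Agent.H537Z.EH

open Matrix

abbrev G4 := Equiv.Perm (Fin 4)

/-- the sign, by counting inversions -/
def eps (g : G4) : ℤ :=
  (if g 0 < g 1 then 1 else -1) * (if g 0 < g 2 then 1 else -1) * (if g 0 < g 3 then 1 else -1) *
  (if g 1 < g 2 then 1 else -1) * (if g 1 < g 3 then 1 else -1) * (if g 2 < g 3 then 1 else -1)

def dd (g : G4) (k l : Fin 4) : ℤ := if k = g l then 1 else 0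

/-- the integer matrix of the action -/
def LL (g : G4) : Matrix (Fin 8) (Fin 8) ℤ :=
  !![1, 0, 0, 0, 0, 0, 0, 0;
     (1 - eps g) / 2, eps g, 0, 0, 0, 0, 0, 0;
     dd g 0 3, 0, dd g 0 0 - dd g 0 3, dd g 0 1 - dd g 0 3, dd g 0 2 - dd g 0 3, 0, 0, 0;
     dd g 1 3, 0, dd g 1 0 - dd g 1 3, dd g 1 1 - dd g 1 3, dd g 1 2 - dd g 1 3, 0, 0, 0;
     dd g 2 3, 0, dd g 2 0 - dd g 2 3, dd g 2 1 - dd g 2 3, dd g 2 2 - dd g 2 3, 0, 0, 0;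
     0, 0, 0, 0, 0, 1, 0, 0;
     0, 0, 0, 0, 0, 0, 1, 0;
     0, 0, 0, 0, 0, 0, 0, 1]

theorem LL_one : LL 1 = 1 := by decide +kernel

theorem LL_mul : ∀ g h : G4, LL (g * h) = LL g * LL h := by decide +kernel

def tT : G4 := Equiv.swap 0 1
def tV : G4 := Equiv.swap 0 1 * Equiv.swap 2 3
def tR : G4 := Equiv.swap 0 1 * Equiv.swap 1 2
def tC : G4 := Equiv.swap 0 1 * (Equiv.swap 1 2 * Equiv.swap 2 3)

theorem classes : ∀ g : G4, ∃ s : G4, g = s * 1 * s⁻¹ ∨ g = s * tT * s⁻¹ ∨ g = s * tV * s⁻¹ ∨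
    g = s * tR * s⁻¹ ∨ g = s * tC * s⁻¹ := by decide +kernel

theorem words : ∀ g : G4, ∃ a : Fin 4, ∃ b : Fin 3, ∃ d : Fin 2,
    g = tC ^ a.val * tR ^ b.val * tT ^ d.val := by decide +kernel

theorem LL_T : LL tT = !![1, 0, 0, 0, 0, 0, 0, 0; 1, -1, 0, 0, 0, 0, 0, 0;
    0, 0, 0, 1, 0, 0, 0, 0; 0, 0, 1, 0, 0, 0, 0, 0; 0, 0, 0, 0, 1, 0, 0, 0;
    0, 0, 0, 0, 0, 1, 0, 0; 0, 0, 0, 0, 0, 0, 1, 0; 0, 0, 0, 0, 0, 0, 0, 1] := by decide +kernel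

theorem LL_V : LL tV = !![1, 0, 0, 0, 0, 0, 0, 0; 0, 1, 0, 0, 0, 0, 0, 0;
    0, 0, 0, 1, 0, 0, 0, 0; 0, 0, 1, 0, 0, 0, 0, 0; 1, 0, -1, -1, -1, 0, 0, 0;
    0, 0, 0, 0, 0, 1, 0, 0; 0, 0, 0, 0, 0, 0, 1, 0; 0, 0, 0, 0, 0, 0, 0, 1] := by decide +kernel

theorem LL_R : LL tR = !![1, 0, 0, 0, 0, 0, 0, 0; 0, 1, 0, 0, 0, 0, 0, 0;
    0, 0, 0, 0, 1, 0, 0, 0; 0, 0, 1, 0, 0, 0, 0, 0; 0, 0, 0, 1, 0, 0, 0, 0;
    0, 0, 0, 0, 0, 1, 0, 0; 0, 0, 0, 0, 0, 0, 1, 0; 0, 0, 0, 0, 0, 0, 0, 1] := by decide +kernel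

theorem LL_C : LL tC = !![1, 0, 0, 0, 0, 0, 0, 0; 1, -1, 0, 0, 0, 0, 0, 0;
    1, 0, -1, -1, -1, 0, 0, 0; 0, 0, 1, 0, 0, 0, 0, 0; 0, 0, 0, 1, 0, 0, 0, 0;
    0, 0, 0, 0, 0, 1, 0, 0; 0, 0, 0, 0, 0, 0, 1, 0; 0, 0, 0, 0, 0, 0, 0, 1] := by decide +kernel

theorem mv_T (x : Fin 8 → ℤ) :
    LL tT *ᵥ x = ![x 0, x 0 - x 1, x 3, x 2, x 4, x 5, x 6, x 7] := by
  rw [LL_T]; funext k
  fin_cases k <;> simp [Matrix.mulVec, dotProduct, Fin.sum_univ_succ] <;> ring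

theorem mv_V (x : Fin 8 → ℤ) :
    LL tV *ᵥ x = ![x 0, x 1, x 3, x 2, x 0 - x 2 - x 3 - x 4, x 5, x 6, x 7] := by
  rw [LL_V]; funext k
  fin_cases k <;> simp [Matrix.mulVec, dotProduct, Fin.sum_univ_succ] <;> ring

theorem mv_R (x : Fin 8 → ℤ) :
    LL tR *ᵥ x = ![x 0, x 1, x 4, x 2, x 3, x 5, x 6, x 7] := by
  rw [LL_R]; funext k
  fin_cases k <;> simp [Matrix.mulVec, dotProduct, Fin.sum_univ_succ]

theorem mv_C (x : Fin 8 → ℤ) :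
    LL tC *ᵥ x = ![x 0, x 0 - x 1, x 0 - x 2 - x 3 - x 4, x 2, x 3, x 5, x 6, x 7] := by
  rw [LL_C]; funext k
  fin_cases k <;> simp [Matrix.mulVec, dotProduct, Fin.sum_univ_succ] <;> ring

theorem vec_eq (x : Fin 8 → ℤ) (a b c d e : ℤ) :
    ![a, b, c, d, e, x 5, x 6, x 7] = x ↔ a = x 0 ∧ b = x 1 ∧ c = x 2 ∧ d = x 3 ∧ e = x 4 := by
  constructor
  · intro h
    exact ⟨congrFun h 0, congrFun h 1, congrFun h 2, congrFun h 3, congrFun h 4⟩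
  · rintro ⟨rfl, rfl, rfl, rfl, rfl⟩
    funext k; fin_cases k <;> rfl

def Inv (g : G4) : Prop := ∀ m x, J A0 B0 m x → J A0 B0 m (LL g *ᵥ x)

theorem Inv.one : Inv 1 := by
  intro m x h; rw [LL_one, Matrix.one_mulVec]; exact h

theorem Inv.mul {g h : G4} (hg : Inv g) (hh : Inv h) : Inv (g * h) := by
  intro m x hx; rw [LL_mul, ← Matrix.mulVec_mulVec]; exact hg _ _ (hh _ _ hx)

theorem Inv.pow {g : G4} (hg : Inv g) (n : ℕ) : Inv (g ^ n) := by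
  induction n with
  | zero => rw [pow_zero]; exact Inv.one
  | succ n ih => rw [pow_succ]; exact ih.mul hg

theorem inv_all (g : G4) : Inv g := by
  have hT : Inv tT := by
    intro m x; rw [mv_T]; simp only [J, A0, B0]; simp; omega
  have hR : Inv tR := by
    intro m x; rw [mv_R]; simp only [J, A0, B0]; simp; omega
  have hC : Inv tC := by
    intro m x; rw [mv_C]; simp only [J, A0, B0]; simp; omega
  obtain ⟨a, b, d, rfl⟩ := words g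
  exact ((hC.pow _).mul (hR.pow _)).mul (hT.pow _)

/-- the linear action -/
def lin (g : G4) : (Fin 8 → ℤ) ≃ₗ[ℤ] (Fin 8 → ℤ) :=
  LinearEquiv.ofLinear (Matrix.toLin' (LL g)) (Matrix.toLin' (LL g⁻¹))
    (by rw [← Matrix.toLin'_mul, ← LL_mul, mul_inv_cancel, LL_one, Matrix.toLin'_one])
    (by rw [← Matrix.toLin'_mul, ← LL_mul, inv_mul_cancel, LL_one, Matrix.toLin'_one])

theorem lin_apply (g : G4) (x : Fin 8 → ℤ) : lin g x = LL g *ᵥ x := rfl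

/-- the affine action -/
def rho : G4 →* ((Fin 8 → ℤ) ≃ᵃ[ℤ] (Fin 8 → ℤ)) :=
  MonoidHom.mk' (fun g => (lin g).toAffineEquiv) (by
    intro g h
    ext x k
    simp [lin_apply, LL_mul])

theorem rho_apply (g : G4) (x : Fin 8 → ℤ) : rho g x = LL g *ᵥ x := rfl

theorem rho_linear (g : G4) (x : Fin 8 → ℤ) : (rho g).linear x = LL g *ᵥ x := rfl

theorem rho_matrix (g : G4) :
    LinearMap.toMatrix' ((rho g).linear : (Fin 8 → ℤ) →ₗ[ℤ] (Fin 8 → ℤ)) = LL g := by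
  have : ((rho g).linear : (Fin 8 → ℤ) →ₗ[ℤ] (Fin 8 → ℤ)) = Matrix.toLin' (LL g) := rfl
  rw [this, LinearMap.toMatrix'_toLin']

end Pool.Agent.H537Z.EH
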