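import Mathlib
import Pool.Agent.H537Z.EH.Act

set_option autoImplicit false

namespace Pool.Agent.H537Z.EH

open Matrix

/-- trace of an integral matrix representation -/
def IsTr (f : G4 → ℤ) : Prop :=
  ∃ (ι : Type) (_ : Fintype ι) (_ : DecidableEq ι) (M : G4 →* Matrix ι ι ℤ),
    ∀ g, (M g).trace = f g

theorem IsTr.of {d : ℕ} (M : G4 → Matrix (Fin d) (Fin d) ℤ) (h1 : M 1 = 1)
    (h2 : ∀ g h, M (g * h) = M g * M h) : IsTr (fun g => (M g).trace) :=
  ⟨Fin d, inferInstance, inferInstance, ⟨⟨M, h1⟩, h2⟩, fun _ => rfl⟩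

theorem IsTr.add {f f' : G4 → ℤ} (h : IsTr f) (h' : IsTr f') : IsTr (fun g => f g + f' g) := by
  obtain ⟨ι, _, _, M, hM⟩ := h
  obtain ⟨κ, _, _, N, hN⟩ := h'
  refine ⟨ι ⊕ κ, inferInstance, inferInstance,
    ⟨⟨fun g => Matrix.fromBlocks (M g) 0 0 (N g), ?_⟩, ?_⟩, ?_⟩
  · simp
  · intro g h; simp [Matrix.fromBlocks_multiply]
  · intro g
    simp [Matrix.trace, ← hM, ← hN]

theorem IsTr.conj {f : G4 → ℤ} (h : IsTr f) (s r : G4) : f (s * r * s⁻¹) = f r := by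
  obtain ⟨ι, _, _, M, hM⟩ := h
  rw [← hM, ← hM, map_mul, map_mul, Matrix.trace_mul_cycle, ← map_mul, inv_mul_cancel, map_one,
    Matrix.one_mul]

theorem IsTr.char {f : G4 → ℤ} (h : IsTr f) :
    ∃ V : FDRep ℂ G4, ∀ g, V.character g = ((f g : ℤ) : ℂ) := by
  obtain ⟨ι, _, _, M, hM⟩ := h
  let φ : Matrix ι ι ℤ →+* Matrix ι ι ℂ := (Int.castRingHom ℂ).mapMatrix
  let ψ : Matrix ι ι ℂ ≃ₐ[ℂ] ((ι → ℂ) →ₗ[ℂ] (ι → ℂ)) := Matrix.toLinAlgEquiv'
  let ρ : Representation ℂ G4 (ι → ℂ) :=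
    (ψ : Matrix ι ι ℂ →* ((ι → ℂ) →ₗ[ℂ] (ι → ℂ))).comp ((φ : Matrix ι ι ℤ →* Matrix ι ι ℂ).comp M)
  refine ⟨FDRep.of ρ, fun g => ?_⟩
  have : (FDRep.of ρ).character g = LinearMap.trace ℂ _ (Matrix.toLin' (φ (M g))) := rfl
  rw [this, Matrix.trace_toLin'_eq, ← hM]
  simp [φ, Matrix.trace]

def m0 (_ : G4) : Matrix (Fin 0) (Fin 0) ℤ := 1
def m1 (_ : G4) : Matrix (Fin 1) (Fin 1) ℤ := 1
def mS (g : G4) : Matrix (Fin 1) (Fin 1) ℤ := Matrix.of fun _ _ => eps g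
def mV (g : G4) : Matrix (Fin 3) (Fin 3) ℤ :=
  Matrix.of fun k l => eps g * (dd g k.castSucc l.castSucc - dd g k.castSucc 3)
def mP (g : G4) : Matrix (Fin 3) (Fin 3) ℤ :=
  Matrix.of fun k l => if (g 0).val ^^^ (g l.succ).val = k.val + 1 then 1 else 0
def mQ (g : G4) : Matrix (Fin 4) (Fin 4) ℤ := Matrix.of fun k l => eps g * dd g k l

theorem tr0 : IsTr (fun g => (m0 g).trace) := IsTr.of m0 rfl (fun _ _ => by simp [m0])
theorem tr1 : IsTr (fun g => (m1 g).trace) := IsTr.of m1 rfl (fun _ _ => by simp [m1])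
theorem trS : IsTr (fun g => (mS g).trace) := IsTr.of mS (by decide +kernel) (by decide +kernel)
theorem trV : IsTr (fun g => (mV g).trace) := IsTr.of mV (by decide +kernel) (by decide +kernel)
theorem trP : IsTr (fun g => (mP g).trace) := IsTr.of mP (by decide +kernel) (by decide +kernel)
theorem trQ : IsTr (fun g => (mQ g).trace) := IsTr.of mQ (by decide +kernel) (by decide +kernel)

/-- the characters of the coefficients -/
def ch (i : ℕ) (g : G4) : ℤ :=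
  if i = 0 then (m1 g).trace
  else if i = 1 then (m1 g).trace + (m1 g).trace + (mV g).trace
  else if i = 2 then (m1 g).trace + (m1 g).trace + (mP g).trace + (mV g).trace
  else if i = 3 then (m1 g).trace + (m1 g).trace + (m1 g).trace + (mQ g).trace
  else if i = 4 then (m1 g).trace + (m1 g).trace + (mS g).trace
  else (m0 g).trace

theorem ch_tr (i : ℕ) : IsTr (ch i) := by
  unfold ch
  split_ifs
  · exact tr1
  · exact (tr1.add tr1).add trV
  · exact ((tr1.add tr1).add trP).add trV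
  · exact ((tr1.add tr1).add tr1).add trQ
  · exact (tr1.add tr1).add trS
  · exact tr0

theorem vals0 (g : G4) : (m0 g).trace = 0 := by simp [Matrix.trace]
theorem vals1 (g : G4) : (m1 g).trace = 1 := by simp [m1]
theorem valsS : (mS 1).trace = 1 ∧ (mS tT).trace = -1 ∧ (mS tV).trace = 1 ∧ (mS tR).trace = 1 ∧
    (mS tC).trace = -1 := by decide +kernel
theorem valsV : (mV 1).trace = 3 ∧ (mV tT).trace = -1 ∧ (mV tV).trace = -1 ∧ (mV tR).trace = 0 ∧
    (mV tC).trace = 1 := by decide +kernel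
theorem valsP : (mP 1).trace = 3 ∧ (mP tT).trace = 1 ∧ (mP tV).trace = 3 ∧ (mP tR).trace = 0 ∧
    (mP tC).trace = 1 := by decide +kernel
theorem valsQ : (mQ 1).trace = 4 ∧ (mQ tT).trace = -2 ∧ (mQ tV).trace = 0 ∧ (mQ tR).trace = 1 ∧
    (mQ tC).trace = 0 := by decide +kernel

end Pool.Agent.H537Z.EH
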