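import Mathlib
import Pool.Agent.H537Z.EH.Join

set_option autoImplicit false

namespace Pool.Agent.H537Z.EH

open PowerSeries

/-- fixed point conditions of the five class representatives -/
def AT : PA := fun i a x y z => 0 ≤ a ∧ a ≤ i ∧ 0 ≤ x ∧ 0 ≤ y ∧ 0 ≤ z ∧ x + y + z ≤ i ∧ 2 * a = i ∧ x = y
def AV : PA := fun i a x y z => 0 ≤ a ∧ a ≤ i ∧ 0 ≤ x ∧ 0 ≤ y ∧ 0 ≤ z ∧ x + y + z ≤ i ∧ x = y ∧ i = 2 * x + 2 * z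
def AR : PA := fun i a x y z => 0 ≤ a ∧ a ≤ i ∧ 0 ≤ x ∧ 0 ≤ y ∧ 0 ≤ z ∧ x + y + z ≤ i ∧ x = y ∧ y = z
def AC : PA := fun i a x y z => 0 ≤ a ∧ a ≤ i ∧ 0 ≤ x ∧ 0 ≤ y ∧ 0 ≤ z ∧ x + y + z ≤ i ∧ 2 * a = i ∧ x = y ∧ y = z ∧ i = 4 * x

theorem cE1 : gf (J (fun i a x y z => 0 ≤ a ∧ a ≤ i ∧ 0 ≤ x ∧ 0 ≤ y ∧ 0 ≤ z ∧ x + y + z ≤ i ∧ a ≤ x) BZ) * (1 - X ^ 1) * (1 - X ^ 1) * (1 - X ^ 1) * (1 - X ^ 1) * (1 - X ^ 1) =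
    X ^ 0 := by
  have h0 := peelA (A := fun i a x y z => 0 ≤ a ∧ a ≤ i ∧ 0 ≤ x ∧ 0 ≤ y ∧ 0 ≤ z ∧ x + y + z ≤ i ∧ a ≤ x)
    (A' := fun i a x y z => 0 ≤ a ∧ a ≤ i ∧ 0 ≤ x ∧ 0 ≤ y ∧ 0 ≤ z ∧ x + y + z ≤ i ∧ a ≤ x ∧ a < 1)
    (by intro i a x y z; simp only [A0]; omega) 1 1 1 0 0
    (by intro i a x y z; omega) (by intro i a x y z; omega)
  have h1 := peelA (A := fun i a x y z => 0 ≤ a ∧ a ≤ i ∧ 0 ≤ x ∧ 0 ≤ y ∧ 0 ≤ z ∧ x + y + z ≤ i ∧ a ≤ x ∧ a < 1)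
    (A' := fun i a x y z => 0 ≤ a ∧ a ≤ i ∧ 0 ≤ x ∧ 0 ≤ y ∧ 0 ≤ z ∧ x + y + z ≤ i ∧ a ≤ x ∧ a < 1 ∧ x - a < 1)
    (by intro i a x y z; simp only [A0]; omega) 1 0 1 0 0
    (by intro i a x y z; omega) (by intro i a x y z; omega)
  have h2 := peelA (A := fun i a x y z => 0 ≤ a ∧ a ≤ i ∧ 0 ≤ x ∧ 0 ≤ y ∧ 0 ≤ z ∧ x + y + z ≤ i ∧ a ≤ x ∧ a < 1 ∧ x - a < 1)
    (A' := fun i a x y z => 0 ≤ a ∧ a ≤ i ∧ 0 ≤ x ∧ 0 ≤ y ∧ 0 ≤ z ∧ x + y + z ≤ i ∧ a ≤ x ∧ a < 1 ∧ x - a < 1 ∧ y < 1)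
    (by intro i a x y z; simp only [A0]; omega) 1 0 0 1 0
    (by intro i a x y z; omega) (by intro i a x y z; omega)
  have h3 := peelA (A := fun i a x y z => 0 ≤ a ∧ a ≤ i ∧ 0 ≤ x ∧ 0 ≤ y ∧ 0 ≤ z ∧ x + y + z ≤ i ∧ a ≤ x ∧ a < 1 ∧ x - a < 1 ∧ y < 1)
    (A' := fun i a x y z => 0 ≤ a ∧ a ≤ i ∧ 0 ≤ x ∧ 0 ≤ y ∧ 0 ≤ z ∧ x + y + z ≤ i ∧ a ≤ x ∧ a < 1 ∧ x - a < 1 ∧ y < 1 ∧ z < 1)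
    (by intro i a x y z; simp only [A0]; omega) 1 0 0 0 1
    (by intro i a x y z; omega) (by intro i a x y z; omega)
  have h4 := peelA (A := fun i a x y z => 0 ≤ a ∧ a ≤ i ∧ 0 ≤ x ∧ 0 ≤ y ∧ 0 ≤ z ∧ x + y + z ≤ i ∧ a ≤ x ∧ a < 1 ∧ x - a < 1 ∧ y < 1 ∧ z < 1)
    (A' := fun i a x y z => 0 ≤ a ∧ a ≤ i ∧ 0 ≤ x ∧ 0 ≤ y ∧ 0 ≤ z ∧ x + y + z ≤ i ∧ a ≤ x ∧ a < 1 ∧ x - a < 1 ∧ y < 1 ∧ z < 1 ∧ i - x - y - z < 1)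
    (by intro i a x y z; simp only [A0]; omega) 1 0 0 0 0
    (by intro i a x y z; omega) (by intro i a x y z; omega)
  have p0 := ptA (A := fun i a x y z => 0 ≤ a ∧ a ≤ i ∧ 0 ≤ x ∧ 0 ≤ y ∧ 0 ≤ z ∧ x + y + z ≤ i ∧ a ≤ x ∧ a < 1 ∧ x - a < 1 ∧ y < 1 ∧ z < 1 ∧ i - x - y - z < 1) 0 0 0 0 0 (by intro i a x y z; omega)
  rw [h0, h1, h2, h3, h4, p0]

theorem cE2 : gf (J (fun i a x y z => 0 ≤ a ∧ a ≤ i ∧ 0 ≤ x ∧ 0 ≤ y ∧ 0 ≤ z ∧ x + y + z ≤ i ∧ x < a ∧ a ≤ x + y) BZ) * (1 - X ^ 1) * (1 - X ^ 1) * (1 - X ^ 1) * (1 - X ^ 1) * (1 - X ^ 1) =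
    X ^ 1 := by
  have h0 := peelA (A := fun i a x y z => 0 ≤ a ∧ a ≤ i ∧ 0 ≤ x ∧ 0 ≤ y ∧ 0 ≤ z ∧ x + y + z ≤ i ∧ x < a ∧ a ≤ x + y)
    (A' := fun i a x y z => 0 ≤ a ∧ a ≤ i ∧ 0 ≤ x ∧ 0 ≤ y ∧ 0 ≤ z ∧ x + y + z ≤ i ∧ x < a ∧ a ≤ x + y ∧ x < 1)
    (by intro i a x y z; simp only [A0]; omega) 1 1 1 0 0
    (by intro i a x y z; omega) (by intro i a x y z; omega)
  have h1 := peelA (A := fun i a x y z => 0 ≤ a ∧ a ≤ i ∧ 0 ≤ x ∧ 0 ≤ y ∧ 0 ≤ z ∧ x + y + z ≤ i ∧ x < a ∧ a ≤ x + y ∧ x < 1)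
    (A' := fun i a x y z => 0 ≤ a ∧ a ≤ i ∧ 0 ≤ x ∧ 0 ≤ y ∧ 0 ≤ z ∧ x + y + z ≤ i ∧ x < a ∧ a ≤ x + y ∧ x < 1 ∧ a - x < 2)
    (by intro i a x y z; simp only [A0]; omega) 1 1 0 1 0
    (by intro i a x y z; omega) (by intro i a x y z; omega)
  have h2 := peelA (A := fun i a x y z => 0 ≤ a ∧ a ≤ i ∧ 0 ≤ x ∧ 0 ≤ y ∧ 0 ≤ z ∧ x + y + z ≤ i ∧ x < a ∧ a ≤ x + y ∧ x < 1 ∧ a - x < 2)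
    (A' := fun i a x y z => 0 ≤ a ∧ a ≤ i ∧ 0 ≤ x ∧ 0 ≤ y ∧ 0 ≤ z ∧ x + y + z ≤ i ∧ x < a ∧ a ≤ x + y ∧ x < 1 ∧ a - x < 2 ∧ x + y - a < 1)
    (by intro i a x y z; simp only [A0]; omega) 1 0 0 1 0
    (by intro i a x y z; omega) (by intro i a x y z; omega)
  have h3 := peelA (A := fun i a x y z => 0 ≤ a ∧ a ≤ i ∧ 0 ≤ x ∧ 0 ≤ y ∧ 0 ≤ z ∧ x + y + z ≤ i ∧ x < a ∧ a ≤ x + y ∧ x < 1 ∧ a - x < 2 ∧ x + y - a < 1)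
    (A' := fun i a x y z => 0 ≤ a ∧ a ≤ i ∧ 0 ≤ x ∧ 0 ≤ y ∧ 0 ≤ z ∧ x + y + z ≤ i ∧ x < a ∧ a ≤ x + y ∧ x < 1 ∧ a - x < 2 ∧ x + y - a < 1 ∧ z < 1)
    (by intro i a x y z; simp only [A0]; omega) 1 0 0 0 1
    (by intro i a x y z; omega) (by intro i a x y z; omega)
  have h4 := peelA (A := fun i a x y z => 0 ≤ a ∧ a ≤ i ∧ 0 ≤ x ∧ 0 ≤ y ∧ 0 ≤ z ∧ x + y + z ≤ i ∧ x < a ∧ a ≤ x + y ∧ x < 1 ∧ a - x < 2 ∧ x + y - a < 1 ∧ z < 1)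
    (A' := fun i a x y z => 0 ≤ a ∧ a ≤ i ∧ 0 ≤ x ∧ 0 ≤ y ∧ 0 ≤ z ∧ x + y + z ≤ i ∧ x < a ∧ a ≤ x + y ∧ x < 1 ∧ a - x < 2 ∧ x + y - a < 1 ∧ z < 1 ∧ i - x - y - z < 1)
    (by intro i a x y z; simp only [A0]; omega) 1 0 0 0 0
    (by intro i a x y z; omega) (by intro i a x y z; omega)
  have p0 := ptA (A := fun i a x y z => 0 ≤ a ∧ a ≤ i ∧ 0 ≤ x ∧ 0 ≤ y ∧ 0 ≤ z ∧ x + y + z ≤ i ∧ x < a ∧ a ≤ x + y ∧ x < 1 ∧ a - x < 2 ∧ x + y - a < 1 ∧ z < 1 ∧ i - x - y - z < 1) 1 1 0 1 0 (by intro i a x y z; omega)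
  rw [h0, h1, h2, h3, h4, p0]

theorem cE3 : gf (J (fun i a x y z => 0 ≤ a ∧ a ≤ i ∧ 0 ≤ x ∧ 0 ≤ y ∧ 0 ≤ z ∧ x + y + z ≤ i ∧ x + y < a ∧ a ≤ x + y + z) BZ) * (1 - X ^ 1) * (1 - X ^ 1) * (1 - X ^ 1) * (1 - X ^ 1) * (1 - X ^ 1) =
    X ^ 1 := by
  have h0 := peelA (A := fun i a x y z => 0 ≤ a ∧ a ≤ i ∧ 0 ≤ x ∧ 0 ≤ y ∧ 0 ≤ z ∧ x + y + z ≤ i ∧ x + y < a ∧ a ≤ x + y + z)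
    (A' := fun i a x y z => 0 ≤ a ∧ a ≤ i ∧ 0 ≤ x ∧ 0 ≤ y ∧ 0 ≤ z ∧ x + y + z ≤ i ∧ x + y < a ∧ a ≤ x + y + z ∧ x < 1)
    (by intro i a x y z; simp only [A0]; omega) 1 1 1 0 0
    (by intro i a x y z; omega) (by intro i a x y z; omega)
  have h1 := peelA (A := fun i a x y z => 0 ≤ a ∧ a ≤ i ∧ 0 ≤ x ∧ 0 ≤ y ∧ 0 ≤ z ∧ x + y + z ≤ i ∧ x + y < a ∧ a ≤ x + y + z ∧ x < 1)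
    (A' := fun i a x y z => 0 ≤ a ∧ a ≤ i ∧ 0 ≤ x ∧ 0 ≤ y ∧ 0 ≤ z ∧ x + y + z ≤ i ∧ x + y < a ∧ a ≤ x + y + z ∧ x < 1 ∧ y < 1)
    (by intro i a x y z; simp only [A0]; omega) 1 1 0 1 0
    (by intro i a x y z; omega) (by intro i a x y z; omega)
  have h2 := peelA (A := fun i a x y z => 0 ≤ a ∧ a ≤ i ∧ 0 ≤ x ∧ 0 ≤ y ∧ 0 ≤ z ∧ x + y + z ≤ i ∧ x + y < a ∧ a ≤ x + y + z ∧ x < 1 ∧ y < 1)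
    (A' := fun i a x y z => 0 ≤ a ∧ a ≤ i ∧ 0 ≤ x ∧ 0 ≤ y ∧ 0 ≤ z ∧ x + y + z ≤ i ∧ x + y < a ∧ a ≤ x + y + z ∧ x < 1 ∧ y < 1 ∧ a - x - y < 2)
    (by intro i a x y z; simp only [A0]; omega) 1 1 0 0 1
    (by intro i a x y z; omega) (by intro i a x y z; omega)
  have h3 := peelA (A := fun i a x y z => 0 ≤ a ∧ a ≤ i ∧ 0 ≤ x ∧ 0 ≤ y ∧ 0 ≤ z ∧ x + y + z ≤ i ∧ x + y < a ∧ a ≤ x + y + z ∧ x < 1 ∧ y < 1 ∧ a - x - y < 2)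
    (A' := fun i a x y z => 0 ≤ a ∧ a ≤ i ∧ 0 ≤ x ∧ 0 ≤ y ∧ 0 ≤ z ∧ x + y + z ≤ i ∧ x + y < a ∧ a ≤ x + y + z ∧ x < 1 ∧ y < 1 ∧ a - x - y < 2 ∧ x + y + z - a < 1)
    (by intro i a x y z; simp only [A0]; omega) 1 0 0 0 1
    (by intro i a x y z; omega) (by intro i a x y z; omega)
  have h4 := peelA (A := fun i a x y z => 0 ≤ a ∧ a ≤ i ∧ 0 ≤ x ∧ 0 ≤ y ∧ 0 ≤ z ∧ x + y + z ≤ i ∧ x + y < a ∧ a ≤ x + y + z ∧ x < 1 ∧ y < 1 ∧ a - x - y < 2 ∧ x + y + z - a < 1)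
    (A' := fun i a x y z => 0 ≤ a ∧ a ≤ i ∧ 0 ≤ x ∧ 0 ≤ y ∧ 0 ≤ z ∧ x + y + z ≤ i ∧ x + y < a ∧ a ≤ x + y + z ∧ x < 1 ∧ y < 1 ∧ a - x - y < 2 ∧ x + y + z - a < 1 ∧ i - x - y - z < 1)
    (by intro i a x y z; simp only [A0]; omega) 1 0 0 0 0
    (by intro i a x y z; omega) (by intro i a x y z; omega)
  have p0 := ptA (A := fun i a x y z => 0 ≤ a ∧ a ≤ i ∧ 0 ≤ x ∧ 0 ≤ y ∧ 0 ≤ z ∧ x + y + z ≤ i ∧ x + y < a ∧ a ≤ x + y + z ∧ x < 1 ∧ y < 1 ∧ a - x - y < 2 ∧ x + y + z - a < 1 ∧ i - x - y - z < 1) 1 1 0 0 1 (by intro i a x y z; omega)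
  rw [h0, h1, h2, h3, h4, p0]

theorem cE4 : gf (J (fun i a x y z => 0 ≤ a ∧ a ≤ i ∧ 0 ≤ x ∧ 0 ≤ y ∧ 0 ≤ z ∧ x + y + z ≤ i ∧ x + y + z < a) BZ) * (1 - X ^ 1) * (1 - X ^ 1) * (1 - X ^ 1) * (1 - X ^ 1) * (1 - X ^ 1) =
    X ^ 1 := by
  have h0 := peelA (A := fun i a x y z => 0 ≤ a ∧ a ≤ i ∧ 0 ≤ x ∧ 0 ≤ y ∧ 0 ≤ z ∧ x + y + z ≤ i ∧ x + y + z < a)
    (A' := fun i a x y z => 0 ≤ a ∧ a ≤ i ∧ 0 ≤ x ∧ 0 ≤ y ∧ 0 ≤ z ∧ x + y + z ≤ i ∧ x + y + z < a ∧ x < 1)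
    (by intro i a x y z; simp only [A0]; omega) 1 1 1 0 0
    (by intro i a x y z; omega) (by intro i a x y z; omega)
  have h1 := peelA (A := fun i a x y z => 0 ≤ a ∧ a ≤ i ∧ 0 ≤ x ∧ 0 ≤ y ∧ 0 ≤ z ∧ x + y + z ≤ i ∧ x + y + z < a ∧ x < 1)
    (A' := fun i a x y z => 0 ≤ a ∧ a ≤ i ∧ 0 ≤ x ∧ 0 ≤ y ∧ 0 ≤ z ∧ x + y + z ≤ i ∧ x + y + z < a ∧ x < 1 ∧ y < 1)
    (by intro i a x y z; simp only [A0]; omega) 1 1 0 1 0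
    (by intro i a x y z; omega) (by intro i a x y z; omega)
  have h2 := peelA (A := fun i a x y z => 0 ≤ a ∧ a ≤ i ∧ 0 ≤ x ∧ 0 ≤ y ∧ 0 ≤ z ∧ x + y + z ≤ i ∧ x + y + z < a ∧ x < 1 ∧ y < 1)
    (A' := fun i a x y z => 0 ≤ a ∧ a ≤ i ∧ 0 ≤ x ∧ 0 ≤ y ∧ 0 ≤ z ∧ x + y + z ≤ i ∧ x + y + z < a ∧ x < 1 ∧ y < 1 ∧ z < 1)
    (by intro i a x y z; simp only [A0]; omega) 1 1 0 0 1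
    (by intro i a x y z; omega) (by intro i a x y z; omega)
  have h3 := peelA (A := fun i a x y z => 0 ≤ a ∧ a ≤ i ∧ 0 ≤ x ∧ 0 ≤ y ∧ 0 ≤ z ∧ x + y + z ≤ i ∧ x + y + z < a ∧ x < 1 ∧ y < 1 ∧ z < 1)
    (A' := fun i a x y z => 0 ≤ a ∧ a ≤ i ∧ 0 ≤ x ∧ 0 ≤ y ∧ 0 ≤ z ∧ x + y + z ≤ i ∧ x + y + z < a ∧ x < 1 ∧ y < 1 ∧ z < 1 ∧ a - x - y - z < 2)
    (by intro i a x y z; simp only [A0]; omega) 1 1 0 0 0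
    (by intro i a x y z; omega) (by intro i a x y z; omega)
  have h4 := peelA (A := fun i a x y z => 0 ≤ a ∧ a ≤ i ∧ 0 ≤ x ∧ 0 ≤ y ∧ 0 ≤ z ∧ x + y + z ≤ i ∧ x + y + z < a ∧ x < 1 ∧ y < 1 ∧ z < 1 ∧ a - x - y - z < 2)
    (A' := fun i a x y z => 0 ≤ a ∧ a ≤ i ∧ 0 ≤ x ∧ 0 ≤ y ∧ 0 ≤ z ∧ x + y + z ≤ i ∧ x + y + z < a ∧ x < 1 ∧ y < 1 ∧ z < 1 ∧ a - x - y - z < 2 ∧ i - a < 1)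
    (by intro i a x y z; simp only [A0]; omega) 1 0 0 0 0
    (by intro i a x y z; omega) (by intro i a x y z; omega)
  have p0 := ptA (A := fun i a x y z => 0 ≤ a ∧ a ≤ i ∧ 0 ≤ x ∧ 0 ≤ y ∧ 0 ≤ z ∧ x + y + z ≤ i ∧ x + y + z < a ∧ x < 1 ∧ y < 1 ∧ z < 1 ∧ a - x - y - z < 2 ∧ i - a < 1) 1 1 0 0 0 (by intro i a x y z; omega)
  rw [h0, h1, h2, h3, h4, p0]

theorem cT : gf (J (fun i a x y z => 0 ≤ a ∧ a ≤ i ∧ 0 ≤ x ∧ 0 ≤ y ∧ 0 ≤ z ∧ x + y + z ≤ i ∧ 2 * a = i ∧ x = y) BZ) * (1 - X ^ 2) * (1 - X ^ 2) * (1 - X ^ 2) =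
    X ^ 0 + X ^ 2 := by
  have h0 := peelA (A := fun i a x y z => 0 ≤ a ∧ a ≤ i ∧ 0 ≤ x ∧ 0 ≤ y ∧ 0 ≤ z ∧ x + y + z ≤ i ∧ 2 * a = i ∧ x = y)
    (A' := fun i a x y z => 0 ≤ a ∧ a ≤ i ∧ 0 ≤ x ∧ 0 ≤ y ∧ 0 ≤ z ∧ x + y + z ≤ i ∧ 2 * a = i ∧ x = y ∧ x < 1)
    (by intro i a x y z; simp only [A0]; omega) 2 1 1 1 0
    (by intro i a x y z; omega) (by intro i a x y z; omega)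
  have h1 := peelA (A := fun i a x y z => 0 ≤ a ∧ a ≤ i ∧ 0 ≤ x ∧ 0 ≤ y ∧ 0 ≤ z ∧ x + y + z ≤ i ∧ 2 * a = i ∧ x = y ∧ x < 1)
    (A' := fun i a x y z => 0 ≤ a ∧ a ≤ i ∧ 0 ≤ x ∧ 0 ≤ y ∧ 0 ≤ z ∧ x + y + z ≤ i ∧ 2 * a = i ∧ x = y ∧ x < 1 ∧ z < 2)
    (by intro i a x y z; simp only [A0]; omega) 2 1 0 0 2
    (by intro i a x y z; omega) (by intro i a x y z; omega)
  have h2 := peelA (A := fun i a x y z => 0 ≤ a ∧ a ≤ i ∧ 0 ≤ x ∧ 0 ≤ y ∧ 0 ≤ z ∧ x + y + z ≤ i ∧ 2 * a = i ∧ x = y ∧ x < 1 ∧ z < 2)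
    (A' := fun i a x y z => 0 ≤ a ∧ a ≤ i ∧ 0 ≤ x ∧ 0 ≤ y ∧ 0 ≤ z ∧ x + y + z ≤ i ∧ 2 * a = i ∧ x = y ∧ x < 1 ∧ z < 2 ∧ i - x - y - z < 2)
    (by intro i a x y z; simp only [A0]; omega) 2 1 0 0 0
    (by intro i a x y z; omega) (by intro i a x y z; omega)
  have s0 := splitA (A := fun i a x y z => 0 ≤ a ∧ a ≤ i ∧ 0 ≤ x ∧ 0 ≤ y ∧ 0 ≤ z ∧ x + y + z ≤ i ∧ 2 * a = i ∧ x = y ∧ x < 1 ∧ z < 2 ∧ i - x - y - z < 2)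
    (A1 := fun i a x y z => i = 0 ∧ a = 0 ∧ x = 0 ∧ y = 0 ∧ z = 0)
    (A2 := fun i a x y z => i = 2 ∧ a = 1 ∧ x = 0 ∧ y = 0 ∧ z = 1)
    (by intro i a x y z; simp only [A0]; omega) (by intro i a x y z; omega) (by intro i a x y z; omega)
  have p0 := ptA (A := fun i a x y z => i = 0 ∧ a = 0 ∧ x = 0 ∧ y = 0 ∧ z = 0) 0 0 0 0 0 (by intro i a x y z; omega)
  have p1 := ptA (A := fun i a x y z => i = 2 ∧ a = 1 ∧ x = 0 ∧ y = 0 ∧ z = 1) 2 1 0 0 1 (by intro i a x y z; omega)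
  rw [h0, h1, h2, s0, p0, p1]

theorem cV1 : gf (J (fun i a x y z => 0 ≤ a ∧ a ≤ i ∧ 0 ≤ x ∧ 0 ≤ y ∧ 0 ≤ z ∧ x + y + z ≤ i ∧ x = y ∧ i = 2 * x + 2 * z ∧ a ≤ 2 * x) BZ) * (1 - X ^ 2) * (1 - X ^ 2) * (1 - X ^ 2) =
    X ^ 0 + X ^ 2 := by
  have h0 := peelA (A := fun i a x y z => 0 ≤ a ∧ a ≤ i ∧ 0 ≤ x ∧ 0 ≤ y ∧ 0 ≤ z ∧ x + y + z ≤ i ∧ x = y ∧ i = 2 * x + 2 * z ∧ a ≤ 2 * x)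
    (A' := fun i a x y z => 0 ≤ a ∧ a ≤ i ∧ 0 ≤ x ∧ 0 ≤ y ∧ 0 ≤ z ∧ x + y + z ≤ i ∧ x = y ∧ i = 2 * x + 2 * z ∧ a ≤ 2 * x ∧ 2 * x - a < 2)
    (by intro i a x y z; simp only [A0]; omega) 2 0 1 1 0
    (by intro i a x y z; omega) (by intro i a x y z; omega)
  have h1 := peelA (A := fun i a x y z => 0 ≤ a ∧ a ≤ i ∧ 0 ≤ x ∧ 0 ≤ y ∧ 0 ≤ z ∧ x + y + z ≤ i ∧ x = y ∧ i = 2 * x + 2 * z ∧ a ≤ 2 * x ∧ 2 * x - a < 2)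
    (A' := fun i a x y z => 0 ≤ a ∧ a ≤ i ∧ 0 ≤ x ∧ 0 ≤ y ∧ 0 ≤ z ∧ x + y + z ≤ i ∧ x = y ∧ i = 2 * x + 2 * z ∧ a ≤ 2 * x ∧ 2 * x - a < 2 ∧ a < 2)
    (by intro i a x y z; simp only [A0]; omega) 2 2 1 1 0
    (by intro i a x y z; omega) (by intro i a x y z; omega)
  have h2 := peelA (A := fun i a x y z => 0 ≤ a ∧ a ≤ i ∧ 0 ≤ x ∧ 0 ≤ y ∧ 0 ≤ z ∧ x + y + z ≤ i ∧ x = y ∧ i = 2 * x + 2 * z ∧ a ≤ 2 * x ∧ 2 * x - a < 2 ∧ a < 2)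
    (A' := fun i a x y z => 0 ≤ a ∧ a ≤ i ∧ 0 ≤ x ∧ 0 ≤ y ∧ 0 ≤ z ∧ x + y + z ≤ i ∧ x = y ∧ i = 2 * x + 2 * z ∧ a ≤ 2 * x ∧ 2 * x - a < 2 ∧ a < 2 ∧ z < 1)
    (by intro i a x y z; simp only [A0]; omega) 2 0 0 0 1
    (by intro i a x y z; omega) (by intro i a x y z; omega)
  have s0 := splitA (A := fun i a x y z => 0 ≤ a ∧ a ≤ i ∧ 0 ≤ x ∧ 0 ≤ y ∧ 0 ≤ z ∧ x + y + z ≤ i ∧ x = y ∧ i = 2 * x + 2 * z ∧ a ≤ 2 * x ∧ 2 * x - a < 2 ∧ a < 2 ∧ z < 1)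
    (A1 := fun i a x y z => i = 0 ∧ a = 0 ∧ x = 0 ∧ y = 0 ∧ z = 0)
    (A2 := fun i a x y z => i = 2 ∧ a = 1 ∧ x = 1 ∧ y = 1 ∧ z = 0)
    (by intro i a x y z; simp only [A0]; omega) (by intro i a x y z; omega) (by intro i a x y z; omega)
  have p0 := ptA (A := fun i a x y z => i = 0 ∧ a = 0 ∧ x = 0 ∧ y = 0 ∧ z = 0) 0 0 0 0 0 (by intro i a x y z; omega)
  have p1 := ptA (A := fun i a x y z => i = 2 ∧ a = 1 ∧ x = 1 ∧ y = 1 ∧ z = 0) 2 1 1 1 0 (by intro i a x y z; omega)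
  rw [h0, h1, h2, s0, p0, p1]

theorem cV2 : gf (J (fun i a x y z => 0 ≤ a ∧ a ≤ i ∧ 0 ≤ x ∧ 0 ≤ y ∧ 0 ≤ z ∧ x + y + z ≤ i ∧ x = y ∧ i = 2 * x + 2 * z ∧ 2 * x < a) BZ) * (1 - X ^ 2) * (1 - X ^ 2) * (1 - X ^ 2) =
    X ^ 2 + X ^ 2 := by
  have h0 := peelA (A := fun i a x y z => 0 ≤ a ∧ a ≤ i ∧ 0 ≤ x ∧ 0 ≤ y ∧ 0 ≤ z ∧ x + y + z ≤ i ∧ x = y ∧ i = 2 * x + 2 * z ∧ 2 * x < a)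
    (A' := fun i a x y z => 0 ≤ a ∧ a ≤ i ∧ 0 ≤ x ∧ 0 ≤ y ∧ 0 ≤ z ∧ x + y + z ≤ i ∧ x = y ∧ i = 2 * x + 2 * z ∧ 2 * x < a ∧ x < 1)
    (by intro i a x y z; simp only [A0]; omega) 2 2 1 1 0
    (by intro i a x y z; omega) (by intro i a x y z; omega)
  have h1 := peelA (A := fun i a x y z => 0 ≤ a ∧ a ≤ i ∧ 0 ≤ x ∧ 0 ≤ y ∧ 0 ≤ z ∧ x + y + z ≤ i ∧ x = y ∧ i = 2 * x + 2 * z ∧ 2 * x < a ∧ x < 1)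
    (A' := fun i a x y z => 0 ≤ a ∧ a ≤ i ∧ 0 ≤ x ∧ 0 ≤ y ∧ 0 ≤ z ∧ x + y + z ≤ i ∧ x = y ∧ i = 2 * x + 2 * z ∧ 2 * x < a ∧ x < 1 ∧ a - 2 * x < 3)
    (by intro i a x y z; simp only [A0]; omega) 2 2 0 0 1
    (by intro i a x y z; omega) (by intro i a x y z; omega)
  have h2 := peelA (A := fun i a x y z => 0 ≤ a ∧ a ≤ i ∧ 0 ≤ x ∧ 0 ≤ y ∧ 0 ≤ z ∧ x + y + z ≤ i ∧ x = y ∧ i = 2 * x + 2 * z ∧ 2 * x < a ∧ x < 1 ∧ a - 2 * x < 3)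
    (A' := fun i a x y z => 0 ≤ a ∧ a ≤ i ∧ 0 ≤ x ∧ 0 ≤ y ∧ 0 ≤ z ∧ x + y + z ≤ i ∧ x = y ∧ i = 2 * x + 2 * z ∧ 2 * x < a ∧ x < 1 ∧ a - 2 * x < 3 ∧ i - a < 2)
    (by intro i a x y z; simp only [A0]; omega) 2 0 0 0 1
    (by intro i a x y z; omega) (by intro i a x y z; omega)
  have s0 := splitA (A := fun i a x y z => 0 ≤ a ∧ a ≤ i ∧ 0 ≤ x ∧ 0 ≤ y ∧ 0 ≤ z ∧ x + y + z ≤ i ∧ x = y ∧ i = 2 * x + 2 * z ∧ 2 * x < a ∧ x < 1 ∧ a - 2 * x < 3 ∧ i - a < 2)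
    (A1 := fun i a x y z => i = 2 ∧ a = 1 ∧ x = 0 ∧ y = 0 ∧ z = 1)
    (A2 := fun i a x y z => i = 2 ∧ a = 2 ∧ x = 0 ∧ y = 0 ∧ z = 1)
    (by intro i a x y z; simp only [A0]; omega) (by intro i a x y z; omega) (by intro i a x y z; omega)
  have p0 := ptA (A := fun i a x y z => i = 2 ∧ a = 1 ∧ x = 0 ∧ y = 0 ∧ z = 1) 2 1 0 0 1 (by intro i a x y z; omega)
  have p1 := ptA (A := fun i a x y z => i = 2 ∧ a = 2 ∧ x = 0 ∧ y = 0 ∧ z = 1) 2 2 0 0 1 (by intro i a x y z; omega)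
  rw [h0, h1, h2, s0, p0, p1]

theorem cR1 : gf (J (fun i a x y z => 0 ≤ a ∧ a ≤ i ∧ 0 ≤ x ∧ 0 ≤ y ∧ 0 ≤ z ∧ x + y + z ≤ i ∧ x = y ∧ y = z ∧ a ≤ i - 3 * x) BZ) * (1 - X ^ 1) * (1 - X ^ 1) * (1 - X ^ 3) =
    X ^ 0 := by
  have h0 := peelA (A := fun i a x y z => 0 ≤ a ∧ a ≤ i ∧ 0 ≤ x ∧ 0 ≤ y ∧ 0 ≤ z ∧ x + y + z ≤ i ∧ x = y ∧ y = z ∧ a ≤ i - 3 * x)
    (A' := fun i a x y z => 0 ≤ a ∧ a ≤ i ∧ 0 ≤ x ∧ 0 ≤ y ∧ 0 ≤ z ∧ x + y + z ≤ i ∧ x = y ∧ y = z ∧ a ≤ i - 3 * x ∧ a < 1)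
    (by intro i a x y z; simp only [A0]; omega) 1 1 0 0 0
    (by intro i a x y z; omega) (by intro i a x y z; omega)
  have h1 := peelA (A := fun i a x y z => 0 ≤ a ∧ a ≤ i ∧ 0 ≤ x ∧ 0 ≤ y ∧ 0 ≤ z ∧ x + y + z ≤ i ∧ x = y ∧ y = z ∧ a ≤ i - 3 * x ∧ a < 1)
    (A' := fun i a x y z => 0 ≤ a ∧ a ≤ i ∧ 0 ≤ x ∧ 0 ≤ y ∧ 0 ≤ z ∧ x + y + z ≤ i ∧ x = y ∧ y = z ∧ a ≤ i - 3 * x ∧ a < 1 ∧ i - 3 * x - a < 1)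
    (by intro i a x y z; simp only [A0]; omega) 1 0 0 0 0
    (by intro i a x y z; omega) (by intro i a x y z; omega)
  have h2 := peelA (A := fun i a x y z => 0 ≤ a ∧ a ≤ i ∧ 0 ≤ x ∧ 0 ≤ y ∧ 0 ≤ z ∧ x + y + z ≤ i ∧ x = y ∧ y = z ∧ a ≤ i - 3 * x ∧ a < 1 ∧ i - 3 * x - a < 1)
    (A' := fun i a x y z => 0 ≤ a ∧ a ≤ i ∧ 0 ≤ x ∧ 0 ≤ y ∧ 0 ≤ z ∧ x + y + z ≤ i ∧ x = y ∧ y = z ∧ a ≤ i - 3 * x ∧ a < 1 ∧ i - 3 * x - a < 1 ∧ x < 1)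
    (by intro i a x y z; simp only [A0]; omega) 3 0 1 1 1
    (by intro i a x y z; omega) (by intro i a x y z; omega)
  have p0 := ptA (A := fun i a x y z => 0 ≤ a ∧ a ≤ i ∧ 0 ≤ x ∧ 0 ≤ y ∧ 0 ≤ z ∧ x + y + z ≤ i ∧ x = y ∧ y = z ∧ a ≤ i - 3 * x ∧ a < 1 ∧ i - 3 * x - a < 1 ∧ x < 1) 0 0 0 0 0 (by intro i a x y z; omega)
  rw [h0, h1, h2, p0]

theorem cR2 : gf (J (fun i a x y z => 0 ≤ a ∧ a ≤ i ∧ 0 ≤ x ∧ 0 ≤ y ∧ 0 ≤ z ∧ x + y + z ≤ i ∧ x = y ∧ y = z ∧ i - 3 * x < a) BZ) * (1 - X ^ 1) * (1 - X ^ 3) * (1 - X ^ 3) =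
    X ^ 3 + X ^ 3 + X ^ 3 := by
  have h0 := peelA (A := fun i a x y z => 0 ≤ a ∧ a ≤ i ∧ 0 ≤ x ∧ 0 ≤ y ∧ 0 ≤ z ∧ x + y + z ≤ i ∧ x = y ∧ y = z ∧ i - 3 * x < a)
    (A' := fun i a x y z => 0 ≤ a ∧ a ≤ i ∧ 0 ≤ x ∧ 0 ≤ y ∧ 0 ≤ z ∧ x + y + z ≤ i ∧ x = y ∧ y = z ∧ i - 3 * x < a ∧ i - 3 * x < 1)
    (by intro i a x y z; simp only [A0]; omega) 1 1 0 0 0
    (by intro i a x y z; omega) (by intro i a x y z; omega)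
  have h1 := peelA (A := fun i a x y z => 0 ≤ a ∧ a ≤ i ∧ 0 ≤ x ∧ 0 ≤ y ∧ 0 ≤ z ∧ x + y + z ≤ i ∧ x = y ∧ y = z ∧ i - 3 * x < a ∧ i - 3 * x < 1)
    (A' := fun i a x y z => 0 ≤ a ∧ a ≤ i ∧ 0 ≤ x ∧ 0 ≤ y ∧ 0 ≤ z ∧ x + y + z ≤ i ∧ x = y ∧ y = z ∧ i - 3 * x < a ∧ i - 3 * x < 1 ∧ a - i + 3 * x < 4)
    (by intro i a x y z; simp only [A0]; omega) 3 3 1 1 1
    (by intro i a x y z; omega) (by intro i a x y z; omega)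
  have h2 := peelA (A := fun i a x y z => 0 ≤ a ∧ a ≤ i ∧ 0 ≤ x ∧ 0 ≤ y ∧ 0 ≤ z ∧ x + y + z ≤ i ∧ x = y ∧ y = z ∧ i - 3 * x < a ∧ i - 3 * x < 1 ∧ a - i + 3 * x < 4)
    (A' := fun i a x y z => 0 ≤ a ∧ a ≤ i ∧ 0 ≤ x ∧ 0 ≤ y ∧ 0 ≤ z ∧ x + y + z ≤ i ∧ x = y ∧ y = z ∧ i - 3 * x < a ∧ i - 3 * x < 1 ∧ a - i + 3 * x < 4 ∧ i - a < 3)
    (by intro i a x y z; simp only [A0]; omega) 3 0 1 1 1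
    (by intro i a x y z; omega) (by intro i a x y z; omega)
  have s0 := splitA (A := fun i a x y z => 0 ≤ a ∧ a ≤ i ∧ 0 ≤ x ∧ 0 ≤ y ∧ 0 ≤ z ∧ x + y + z ≤ i ∧ x = y ∧ y = z ∧ i - 3 * x < a ∧ i - 3 * x < 1 ∧ a - i + 3 * x < 4 ∧ i - a < 3)
    (A1 := fun i a x y z => i = 3 ∧ a = 1 ∧ x = 1 ∧ y = 1 ∧ z = 1)
    (A2 := fun i a x y z => (i = 3 ∧ a = 2 ∧ x = 1 ∧ y = 1 ∧ z = 1) ∨ (i = 3 ∧ a = 3 ∧ x = 1 ∧ y = 1 ∧ z = 1))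
    (by intro i a x y z; simp only [A0]; omega) (by intro i a x y z; omega) (by intro i a x y z; omega)
  have p0 := ptA (A := fun i a x y z => i = 3 ∧ a = 1 ∧ x = 1 ∧ y = 1 ∧ z = 1) 3 1 1 1 1 (by intro i a x y z; omega)
  have s1 := splitA (A := fun i a x y z => (i = 3 ∧ a = 2 ∧ x = 1 ∧ y = 1 ∧ z = 1) ∨ (i = 3 ∧ a = 3 ∧ x = 1 ∧ y = 1 ∧ z = 1))
    (A1 := fun i a x y z => i = 3 ∧ a = 2 ∧ x = 1 ∧ y = 1 ∧ z = 1)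
    (A2 := fun i a x y z => i = 3 ∧ a = 3 ∧ x = 1 ∧ y = 1 ∧ z = 1)
    (by intro i a x y z; simp only [A0]; omega) (by intro i a x y z; omega) (by intro i a x y z; omega)
  have p1 := ptA (A := fun i a x y z => i = 3 ∧ a = 2 ∧ x = 1 ∧ y = 1 ∧ z = 1) 3 2 1 1 1 (by intro i a x y z; omega)
  have p2 := ptA (A := fun i a x y z => i = 3 ∧ a = 3 ∧ x = 1 ∧ y = 1 ∧ z = 1) 3 3 1 1 1 (by intro i a x y z; omega)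
  rw [h0, h1, h2, s0, p0, s1, p1, p2]
  ring

theorem cC : gf (J (fun i a x y z => 0 ≤ a ∧ a ≤ i ∧ 0 ≤ x ∧ 0 ≤ y ∧ 0 ≤ z ∧ x + y + z ≤ i ∧ 2 * a = i ∧ x = y ∧ y = z ∧ i = 4 * x) BZ) * (1 - X ^ 4) =
    X ^ 0 := by
  have h0 := peelA (A := fun i a x y z => 0 ≤ a ∧ a ≤ i ∧ 0 ≤ x ∧ 0 ≤ y ∧ 0 ≤ z ∧ x + y + z ≤ i ∧ 2 * a = i ∧ x = y ∧ y = z ∧ i = 4 * x)
    (A' := fun i a x y z => 0 ≤ a ∧ a ≤ i ∧ 0 ≤ x ∧ 0 ≤ y ∧ 0 ≤ z ∧ x + y + z ≤ i ∧ 2 * a = i ∧ x = y ∧ y = z ∧ i = 4 * x ∧ x < 1)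
    (by intro i a x y z; simp only [A0]; omega) 4 2 1 1 1
    (by intro i a x y z; omega) (by intro i a x y z; omega)
  have p0 := ptA (A := fun i a x y z => 0 ≤ a ∧ a ≤ i ∧ 0 ≤ x ∧ 0 ≤ y ∧ 0 ≤ z ∧ x + y + z ≤ i ∧ 2 * a = i ∧ x = y ∧ y = z ∧ i = 4 * x ∧ x < 1) 0 0 0 0 0 (by intro i a x y z; omega)
  rw [h0, p0]

theorem gE : gf (J A0 BZ) * (1 - X) ^ 5 = 1 + 3 * X := by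
  have s1 := splitA (A := A0) (A1 := fun i a x y z => 0 ≤ a ∧ a ≤ i ∧ 0 ≤ x ∧ 0 ≤ y ∧ 0 ≤ z ∧ x + y + z ≤ i ∧ a ≤ x)
    (A2 := fun i a x y z => 0 ≤ a ∧ a ≤ i ∧ 0 ≤ x ∧ 0 ≤ y ∧ 0 ≤ z ∧ x + y + z ≤ i ∧ x < a) (fun _ _ _ _ _ h => h)
    (by intro i a x y z; simp only [A0]; omega) (by intro i a x y z; omega)
  have s2 := splitA (A := fun i a x y z => 0 ≤ a ∧ a ≤ i ∧ 0 ≤ x ∧ 0 ≤ y ∧ 0 ≤ z ∧ x + y + z ≤ i ∧ x < a) (A1 := fun i a x y z => 0 ≤ a ∧ a ≤ i ∧ 0 ≤ x ∧ 0 ≤ y ∧ 0 ≤ z ∧ x + y + z ≤ i ∧ x < a ∧ a ≤ x + y)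
    (A2 := fun i a x y z => 0 ≤ a ∧ a ≤ i ∧ 0 ≤ x ∧ 0 ≤ y ∧ 0 ≤ z ∧ x + y + z ≤ i ∧ x + y < a) (by intro i a x y z; simp only [A0]; omega) (by intro i a x y z; omega) (by intro i a x y z; omega)
  have s3 := splitA (A := fun i a x y z => 0 ≤ a ∧ a ≤ i ∧ 0 ≤ x ∧ 0 ≤ y ∧ 0 ≤ z ∧ x + y + z ≤ i ∧ x + y < a) (A1 := fun i a x y z => 0 ≤ a ∧ a ≤ i ∧ 0 ≤ x ∧ 0 ≤ y ∧ 0 ≤ z ∧ x + y + z ≤ i ∧ x + y < a ∧ a ≤ x + y + z)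
    (A2 := fun i a x y z => 0 ≤ a ∧ a ≤ i ∧ 0 ≤ x ∧ 0 ≤ y ∧ 0 ≤ z ∧ x + y + z ≤ i ∧ x + y + z < a) (by intro i a x y z; simp only [A0]; omega) (by intro i a x y z; omega) (by intro i a x y z; omega)
  rw [s1, s2, s3]
  linear_combination cE1 + cE2 + cE3 + cE4

theorem gT : gf (J AT BZ) * (1 - X ^ 2) ^ 3 = 1 + X ^ 2 := by
  unfold AT
  linear_combination cT

theorem gV : gf (J AV BZ) * (1 - X ^ 2) ^ 3 = 1 + 3 * X ^ 2 := by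
  have s1 := splitA (A := AV) (A1 := fun i a x y z => 0 ≤ a ∧ a ≤ i ∧ 0 ≤ x ∧ 0 ≤ y ∧ 0 ≤ z ∧ x + y + z ≤ i ∧ x = y ∧ i = 2 * x + 2 * z ∧ a ≤ 2 * x)
    (A2 := fun i a x y z => 0 ≤ a ∧ a ≤ i ∧ 0 ≤ x ∧ 0 ≤ y ∧ 0 ≤ z ∧ x + y + z ≤ i ∧ x = y ∧ i = 2 * x + 2 * z ∧ 2 * x < a) (by intro i a x y z; simp only [AV, A0]; omega)
    (by intro i a x y z; simp only [AV]; omega) (by intro i a x y z; omega)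
  rw [s1]
  linear_combination cV1 + cV2

theorem gR : gf (J AR BZ) * ((1 - X) ^ 2 * (1 - X ^ 3) ^ 2) =
    (1 - X ^ 3) + 3 * X ^ 3 * (1 - X) := by
  have s1 := splitA (A := AR) (A1 := fun i a x y z => 0 ≤ a ∧ a ≤ i ∧ 0 ≤ x ∧ 0 ≤ y ∧ 0 ≤ z ∧ x + y + z ≤ i ∧ x = y ∧ y = z ∧ a ≤ i - 3 * x)
    (A2 := fun i a x y z => 0 ≤ a ∧ a ≤ i ∧ 0 ≤ x ∧ 0 ≤ y ∧ 0 ≤ z ∧ x + y + z ≤ i ∧ x = y ∧ y = z ∧ i - 3 * x < a) (by intro i a x y z; simp only [AR, A0]; omega)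
    (by intro i a x y z; simp only [AR]; omega) (by intro i a x y z; omega)
  rw [s1]
  linear_combination (1 - X ^ 3) * cR1 + (1 - X) * cR2

theorem gC : gf (J AC BZ) * (1 - X ^ 4) = 1 := by
  unfold AC
  linear_combination cC

end Pool.Agent.H537Z.EH
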