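import Mathlib
import Pool.Agent.H537Z.EH.Act

set_option autoImplicit false

namespace Pool.Agent.H537Z.EH

open Matrix Polynomial

theorem det_tri {R : Type} [CommRing R] (A : Matrix (Fin 8) (Fin 8) R) (α β : R)
    (h1 : ∀ i j, i < j → i ≠ 2 → A i j = 0)
    (h2 : ∀ j, 2 < j → A 2 j + α * A 3 j + β * A 4 j = 0) :
    A.det = A 0 0 * A 1 1 * (A 2 2 + α * A 3 2 + β * A 4 2) * A 3 3 * A 4 4 * A 5 5 * A 6 6 *
      A 7 7 := by
  have e1 := Matrix.det_updateRow_add_smul_self A (i := 2) (j := 3) (by decide) α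
  have e2 := Matrix.det_updateRow_add_smul_self (A.updateRow 2 (A 2 + α • A 3)) (i := 2) (j := 4)
    (by decide) β
  rw [← e1, ← e2, Matrix.det_of_isLowerTriangular]
  · simp [Fin.prod_univ_succ, Matrix.updateRow_apply]
    ring
  · intro i j hij
    have hij' : i < j := hij
    by_cases hi : i = 2
    · subst hi
      simp [Matrix.updateRow_apply]
      exact h2 j hij'
    · simp [Matrix.updateRow_apply, hi]
      exact h1 i j hij' hi

/-- the denominators -/
noncomputable def DD {n : Type} [Fintype n] [DecidableEq n] (M : Matrix n n ℤ) : ℤ[X] :=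
  (1 - X) * Matrix.det (1 - (X : ℤ[X]) • M.map C)

theorem DD_def {n : Type} [Fintype n] [DecidableEq n] (M : Matrix n n ℤ) :
    DD M = (1 - X) * Matrix.det (1 - (X : ℤ[X]) • M.map C) := rfl

theorem upper_zero (M : Matrix (Fin 8) (Fin 8) ℤ) (h : ∀ i j, i < j → i ≠ 2 → M i j = 0) :
    ∀ i j, i < j → i ≠ 2 → (1 - (X : ℤ[X]) • M.map C) i j = 0 := by
  intro i j hij hi
  simp [Matrix.one_apply_ne hij.ne, h i j hij hi]

theorem DD_E : DD (LL 1) = (1 - X) ^ 9 := by
  rw [DD_def, det_tri _ 0 0 (upper_zero _ (by decide +kernel)), LL_one]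
  · simp; ring
  · rw [LL_one]; intro j hj; simp [Matrix.one_apply_ne hj.ne]

theorem DD_T : DD (LL tT) = (1 - X) ^ 6 * (1 + X) * (1 - X ^ 2) := by
  rw [DD_def, det_tri _ X 0 (upper_zero _ (by decide +kernel)), LL_T]
  · simp; ring
  · rw [LL_T]; intro j hj; fin_cases j <;> simp at hj ⊢

theorem DD_V : DD (LL tV) = (1 - X) ^ 6 * (1 + X) * (1 - X ^ 2) := by
  rw [DD_def, det_tri _ X 0 (upper_zero _ (by decide +kernel)), LL_V]
  · simp; ring
  · rw [LL_V]; intro j hj; fin_cases j <;> simp at hj ⊢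

theorem DD_R : DD (LL tR) = (1 - X) ^ 6 * (1 - X ^ 3) := by
  rw [DD_def, det_tri _ (X ^ 2) X (upper_zero _ (by decide +kernel)), LL_R]
  · simp; ring
  · rw [LL_R]; intro j hj; fin_cases j <;> simp at hj ⊢ <;> ring

theorem DD_C : DD (LL tC) = (1 - X) ^ 5 * (1 + X) * (1 + X + X ^ 2 + X ^ 3) := by
  rw [DD_def, det_tri _ (-X - X ^ 2) (-X) (upper_zero _ (by decide +kernel)), LL_C]
  · simp; ring
  · rw [LL_C]; intro j hj; fin_cases j <;> simp at hj ⊢ <;> ring

theorem DD_conj' {n : Type} [Fintype n] [DecidableEq n] (S M T : Matrix n n ℤ) (h : S * T = 1) :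
    DD (S * M * T) = DD M := by
  rw [DD_def, DD_def]
  have h1 : S.map (C : ℤ → ℤ[X]) * T.map C = 1 := by
    rw [← Matrix.map_mul, h]
    exact Matrix.map_one _ (map_zero _) (map_one _)
  have h2 : (1 - (X : ℤ[X]) • (S * M * T).map C) =
      S.map C * (1 - (X : ℤ[X]) • M.map C) * T.map C := by
    rw [Matrix.map_mul, Matrix.map_mul, Matrix.mul_sub, Matrix.sub_mul,
      Matrix.mul_one, h1, Matrix.mul_smul, Matrix.smul_mul]
  have h3 : (S.map (C : ℤ → ℤ[X])).det * (T.map C).det = 1 := by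
    rw [← Matrix.det_mul, h1, Matrix.det_one]
  rw [h2, Matrix.det_mul, Matrix.det_mul]
  linear_combination (1 - X) * (1 - (X : ℤ[X]) • M.map C).det * h3

theorem DD_conj (s r : G4) : DD (LL (s * r * s⁻¹)) = DD (LL r) := by
  rw [LL_mul, LL_mul]
  exact DD_conj' _ _ _ (by rw [← LL_mul, mul_inv_cancel, LL_one])

end Pool.Agent.H537Z.EH
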