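import Mathlib
import Pool.Agent.H537Z.EH.Act

set_option autoImplicit false

namespace Pool.Agent.H537Z.EH

theorem pt_ineq (p q r s t : Prop) [Decidable p] [Decidable q] [Decidable r] [Decidable s]
    [Decidable t] (H : (p → q → t) ∧ (p → r → t) ∧ (p → s → t) ∧ (q → r → t) ∧ (q → s → t) ∧
      (r → s → t)) :
    (if p then 1 else 0) + (if q then 1 else 0) + (if r then 1 else 0) + (if s then 1 else 0) ≤
      1 + 3 * (if t then 1 else 0 : ℕ) := by
  by_cases hp : p <;> by_cases hq : q <;> by_cases hr : r <;> by_cases hs : s <;>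
    by_cases ht : t <;> simp_all

theorem fix_ineq' {G Y : Type} [Group G] [Finite Y] [MulAction G Y] (a b c d t : G)
    (H : ∀ y : Y, (a • y = y → b • y = y → t • y = y) ∧ (a • y = y → c • y = y → t • y = y) ∧
    (a • y = y → d • y = y → t • y = y) ∧ (b • y = y → c • y = y → t • y = y) ∧
    (b • y = y → d • y = y → t • y = y) ∧ (c • y = y → d • y = y → t • y = y)) :
    Nat.card {y : Y // a • y = y} + Nat.card {y : Y // b • y = y} +
      Nat.card {y : Y // c • y = y} + Nat.card {y : Y // d • y = y} ≤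
    Nat.card {y : Y // (1 : G) • y = y} + 3 * Nat.card {y : Y // t • y = y} := by
  classical
  have := Fintype.ofFinite Y
  simp only [Nat.card_eq_fintype_card, Fintype.card_subtype, Finset.card_filter,
    Finset.mul_sum, ← Finset.sum_add_distrib]
  refine Finset.sum_le_sum (fun y _ => ?_)
  simp only [one_smul, if_true]
  exact pt_ineq _ _ _ _ _ (H y)

def c2 : G4 := Equiv.swap 0 1 * tC * (Equiv.swap 0 1)⁻¹
def c3 : G4 := Equiv.swap 1 2 * tC * (Equiv.swap 1 2)⁻¹

theorem fixT {Y : Type} [MulAction G4 Y] (y : Y) :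
    (tC • y = y → c2 • y = y → tT • y = y) ∧ (tC • y = y → c3 • y = y → tT • y = y) ∧
    (tC • y = y → tR • y = y → tT • y = y) ∧ (c2 • y = y → c3 • y = y → tT • y = y) ∧
    (c2 • y = y → tR • y = y → tT • y = y) ∧ (c3 • y = y → tR • y = y → tT • y = y) := by
  have w1 : tT = tC * c2 * tC := by decide +kernel
  have w2 : tT = c3 * tC * tC := by decide +kernel
  have w3 : tT = tC * tR * tC * tC := by decide +kernel
  have w4 : tT = c2 * c2 * c3 := by decide +kernel
  have w5 : tT = c2 * tR * tR * c2 * c2 := by decide +kernel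
  have w6 : tT = c3 * tR * tR * c3 * c3 * tR := by decide +kernel
  refine ⟨?_, ?_, ?_, ?_, ?_, ?_⟩ <;> intro h1 h2
  · rw [w1]; simp only [mul_smul, h1, h2]
  · rw [w2]; simp only [mul_smul, h1, h2]
  · rw [w3]; simp only [mul_smul, h1, h2]
  · rw [w4]; simp only [mul_smul, h1, h2]
  · rw [w5]; simp only [mul_smul, h1, h2]
  · rw [w6]; simp only [mul_smul, h1, h2]

theorem fix_ineq {Y : Type} [Finite Y] [MulAction G4 Y] :
    Nat.card {y : Y // tC • y = y} + Nat.card {y : Y // c2 • y = y} +
      Nat.card {y : Y // c3 • y = y} + Nat.card {y : Y // tR • y = y} ≤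
    Nat.card {y : Y // (1 : G4) • y = y} + 3 * Nat.card {y : Y // tT • y = y} :=
  fix_ineq' tC c2 c3 tR tT fixT

end Pool.Agent.H537Z.EH
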