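import Mathlib
import Pool.Agent.H537Z.EH.Join

set_option autoImplicit false

namespace Pool.Agent.H537Z.EH

open Pointwise

/-- the twelve vertices -/
def pts : Fin 12 → (Fin 8 → ℤ) :=
  ![![1, 0, 1, 0, 0, 0, 0, 0], ![1, 0, 0, 1, 0, 0, 0, 0], ![1, 0, 0, 0, 1, 0, 0, 0],
    ![1, 0, 0, 0, 0, 0, 0, 0], ![1, 1, 1, 0, 0, 0, 0, 0], ![1, 1, 0, 1, 0, 0, 0, 0],
    ![1, 1, 0, 0, 1, 0, 0, 0], ![1, 1, 0, 0, 0, 0, 0, 0], ![0, 0, 0, 0, 0, 1, -1, -1],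
    ![0, 0, 0, 0, 0, -1, -1, -1], ![0, 0, 0, 0, 0, 0, 1, 0], ![0, 0, 0, 0, 0, 0, 0, 1]]

def SS : Finset (Fin 8 → ℤ) := Finset.univ.image pts

def PP : Set (Fin 8 → ℝ) :=
  convexHull ℝ ((fun x : Fin 8 → ℤ => fun k => (x k : ℝ)) '' (SS : Set (Fin 8 → ℤ)))

/-- real inequality description of the dilates -/
def RR (m : ℝ) (y : Fin 8 → ℝ) : Prop :=
  0 ≤ y 1 ∧ y 1 ≤ y 0 ∧ 0 ≤ y 2 ∧ 0 ≤ y 3 ∧ 0 ≤ y 4 ∧ y 2 + y 3 + y 4 ≤ y 0 ∧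
  0 ≤ m - y 0 - y 6 - y 7 + 3 * y 5 ∧ 0 ≤ m - y 0 - y 6 - y 7 - 3 * y 5 ∧
  0 ≤ m - y 0 + 2 * y 6 - y 7 ∧ 0 ≤ m - y 0 - y 6 + 2 * y 7

theorem RR_of_mem {y : Fin 8 → ℝ} (hy : y ∈ PP) : RR 1 y := by
  have hc : Convex ℝ {y : Fin 8 → ℝ | RR 1 y} := by
    intro u hu v hv a b ha hb hab
    simp only [RR, Set.mem_ofPred_eq, Pi.add_apply, Pi.smul_apply, smul_eq_mul] at hu hv ⊢
    obtain ⟨u1, u2, u3, u4, u5, u6, u7, u8, u9, u10⟩ := hu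
    obtain ⟨v1, v2, v3, v4, v5, v6, v7, v8, v9, v10⟩ := hv
    refine ⟨?_, ?_, ?_, ?_, ?_, ?_, ?_, ?_, ?_, ?_⟩
    · nlinarith [mul_nonneg ha u1, mul_nonneg hb v1]
    · nlinarith [mul_nonneg ha (sub_nonneg.2 u2), mul_nonneg hb (sub_nonneg.2 v2)]
    · nlinarith [mul_nonneg ha u3, mul_nonneg hb v3]
    · nlinarith [mul_nonneg ha u4, mul_nonneg hb v4]
    · nlinarith [mul_nonneg ha u5, mul_nonneg hb v5]
    · nlinarith [mul_nonneg ha (sub_nonneg.2 u6), mul_nonneg hb (sub_nonneg.2 v6)]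
    · nlinarith [mul_nonneg ha u7, mul_nonneg hb v7]
    · nlinarith [mul_nonneg ha u8, mul_nonneg hb v8]
    · nlinarith [mul_nonneg ha u9, mul_nonneg hb v9]
    · nlinarith [mul_nonneg ha u10, mul_nonneg hb v10]
  refine convexHull_min ?_ hc hy
  rintro _ ⟨x, hx, rfl⟩
  simp only [SS, Finset.coe_image, Finset.coe_univ, Set.image_univ, Set.mem_range] at hx
  obtain ⟨k, rfl⟩ := hx
  fin_cases k <;> simp [RR, pts] <;> norm_num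

theorem mem_of_w (w : Fin 12 → ℝ) (h0 : ∀ k, 0 ≤ w k) {y : Fin 8 → ℝ}
    (h1 : w 0 + w 1 + w 2 + w 3 + w 4 + w 5 + w 6 + w 7 + w 8 + w 9 + w 10 + w 11 = 1)
    (e0 : w 0 + w 1 + w 2 + w 3 + w 4 + w 5 + w 6 + w 7 = y 0)
    (e1 : w 4 + w 5 + w 6 + w 7 = y 1) (e2 : w 0 + w 4 = y 2) (e3 : w 1 + w 5 = y 3)
    (e4 : w 2 + w 6 = y 4) (e5 : w 8 - w 9 = y 5) (e6 : - w 8 - w 9 + w 10 = y 6)
    (e7 : - w 8 - w 9 + w 11 = y 7) : y ∈ PP := by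
  refine mem_convexHull_of_exists_fintype w (fun k => fun l => (pts k l : ℝ)) h0 ?_ ?_ ?_
  · simp only [Fin.sum_univ_succ, Finset.univ_eq_empty, Finset.sum_empty]
    simp
    linarith
  · intro k
    exact ⟨pts k, by simp [SS], rfl⟩
  · funext l
    rw [Finset.sum_apply]
    simp only [Fin.sum_univ_succ, Finset.univ_eq_empty, Finset.sum_empty, Pi.smul_apply,
      smul_eq_mul]
    fin_cases l <;> simp [pts] <;> linarith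

theorem mem_of_RR {y : Fin 8 → ℝ} (hy : RR 1 y) : y ∈ PP := by
  obtain ⟨u1, u2, u3, u4, u5, u6, u7, u8, u9, u10⟩ := hy
  rcases le_total (y 1) (y 2) with c1 | c1
  · refine mem_of_w ![y 2 - y 1, y 3, y 4, y 0 - y 2 - y 3 - y 4, y 1, 0, 0, 0,
      (1 - y 0 - y 6 - y 7 + 3 * y 5) / 6, (1 - y 0 - y 6 - y 7 - 3 * y 5) / 6,
      (1 - y 0 + 2 * y 6 - y 7) / 3, (1 - y 0 - y 6 + 2 * y 7) / 3] ?_ ?_ ?_ ?_ ?_ ?_ ?_ ?_ ?_ ?_
    · intro k; fin_cases k <;> simp <;> linarith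
    all_goals (simp; try ring)
  rcases le_total (y 1) (y 2 + y 3) with c2 | c2
  · refine mem_of_w ![0, y 2 + y 3 - y 1, y 4, y 0 - y 2 - y 3 - y 4, y 2, y 1 - y 2, 0, 0,
      (1 - y 0 - y 6 - y 7 + 3 * y 5) / 6, (1 - y 0 - y 6 - y 7 - 3 * y 5) / 6,
      (1 - y 0 + 2 * y 6 - y 7) / 3, (1 - y 0 - y 6 + 2 * y 7) / 3] ?_ ?_ ?_ ?_ ?_ ?_ ?_ ?_ ?_ ?_
    · intro k; fin_cases k <;> simp <;> linarith
    all_goals (simp; try ring)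
  rcases le_total (y 1) (y 2 + y 3 + y 4) with c3 | c3
  · refine mem_of_w ![0, 0, y 2 + y 3 + y 4 - y 1, y 0 - y 2 - y 3 - y 4, y 2, y 3,
      y 1 - y 2 - y 3, 0,
      (1 - y 0 - y 6 - y 7 + 3 * y 5) / 6, (1 - y 0 - y 6 - y 7 - 3 * y 5) / 6,
      (1 - y 0 + 2 * y 6 - y 7) / 3, (1 - y 0 - y 6 + 2 * y 7) / 3] ?_ ?_ ?_ ?_ ?_ ?_ ?_ ?_ ?_ ?_
    · intro k; fin_cases k <;> simp <;> linarith
    all_goals (simp; try ring)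
  · refine mem_of_w ![0, 0, 0, y 0 - y 1, y 2, y 3, y 4, y 1 - y 2 - y 3 - y 4,
      (1 - y 0 - y 6 - y 7 + 3 * y 5) / 6, (1 - y 0 - y 6 - y 7 - 3 * y 5) / 6,
      (1 - y 0 + 2 * y 6 - y 7) / 3, (1 - y 0 - y 6 + 2 * y 7) / 3] ?_ ?_ ?_ ?_ ?_ ?_ ?_ ?_ ?_ ?_
    · intro k; fin_cases k <;> simp <;> linarith
    all_goals (simp; try ring)

theorem mem_smul_iff {m : ℝ} (hm : 0 ≤ m) (y : Fin 8 → ℝ) : y ∈ m • PP ↔ RR m y := by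
  constructor
  · rintro ⟨p, hp, rfl⟩
    obtain ⟨u1, u2, u3, u4, u5, u6, u7, u8, u9, u10⟩ := RR_of_mem hp
    simp only [RR, Pi.smul_apply, smul_eq_mul]
    refine ⟨?_, ?_, ?_, ?_, ?_, ?_, ?_, ?_, ?_, ?_⟩
    · exact mul_nonneg hm u1
    · nlinarith [mul_nonneg hm (sub_nonneg.2 u2)]
    · exact mul_nonneg hm u3
    · exact mul_nonneg hm u4
    · exact mul_nonneg hm u5
    · nlinarith [mul_nonneg hm (sub_nonneg.2 u6)]
    · nlinarith [mul_nonneg hm u7]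
    · nlinarith [mul_nonneg hm u8]
    · nlinarith [mul_nonneg hm u9]
    · nlinarith [mul_nonneg hm u10]
  · intro hy
    obtain ⟨u1, u2, u3, u4, u5, u6, u7, u8, u9, u10⟩ := hy
    rcases hm.eq_or_lt with h0 | h0
    · subst h0
      refine ⟨fun l => (pts 0 l : ℝ), subset_convexHull ℝ _ ⟨pts 0, by simp [SS], rfl⟩, ?_⟩
      funext l
      simp only [zero_smul, Pi.zero_apply]
      fin_cases l <;> simp <;> linarith
    · have hi : 0 ≤ m⁻¹ := inv_nonneg.2 hm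
      have hmi : m⁻¹ * m = 1 := inv_mul_cancel₀ h0.ne'
      refine ⟨m⁻¹ • y, mem_of_RR ?_, by simp only [smul_smul]; rw [mul_inv_cancel₀ h0.ne', one_smul]⟩
      simp only [RR, Pi.smul_apply, smul_eq_mul]
      refine ⟨?_, ?_, ?_, ?_, ?_, ?_, ?_, ?_, ?_, ?_⟩
      · exact mul_nonneg hi u1
      · nlinarith [mul_nonneg hi (sub_nonneg.2 u2)]
      · exact mul_nonneg hi u3
      · exact mul_nonneg hi u4
      · exact mul_nonneg hi u5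
      · nlinarith [mul_nonneg hi (sub_nonneg.2 u6)]
      · nlinarith [mul_nonneg hi u7]
      · nlinarith [mul_nonneg hi u8]
      · nlinarith [mul_nonneg hi u9]
      · nlinarith [mul_nonneg hi u10]

theorem RR_cast (m : ℤ) (x : Fin 8 → ℤ) : RR (m : ℝ) (fun k => (x k : ℝ)) ↔ J A0 B0 m x := by
  simp only [RR, J, A0, B0]
  norm_cast
  omega

theorem lat_iff (m : ℕ) (x : Fin 8 → ℤ) :
    (fun k => (x k : ℝ)) ∈ (m : ℝ) • PP ↔ J A0 B0 (m : ℤ) x := by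
  rw [mem_smul_iff (Nat.cast_nonneg m), ← RR_cast]
  simp

theorem lat_iff_one (x : Fin 8 → ℤ) : (fun k => (x k : ℝ)) ∈ PP ↔ J A0 B0 1 x := by
  have := lat_iff 1 x
  simpa using this

theorem interior_PP : (interior PP).Nonempty := by
  let U : Set (Fin 8 → ℝ) := {y | 0 < y 1 ∧ y 1 < y 0 ∧ 0 < y 2 ∧ 0 < y 3 ∧ 0 < y 4 ∧
    y 2 + y 3 + y 4 < y 0 ∧
    0 < 1 - y 0 - y 6 - y 7 + 3 * y 5 ∧ 0 < 1 - y 0 - y 6 - y 7 - 3 * y 5 ∧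
    0 < 1 - y 0 + 2 * y 6 - y 7 ∧ 0 < 1 - y 0 - y 6 + 2 * y 7}
  have hU : IsOpen U := by
    simp only [U, Set.ofPred_and]
    repeat' apply IsOpen.inter
    all_goals exact isOpen_lt (by fun_prop) (by fun_prop)
  have hsub : U ⊆ PP := by
    intro y hy
    obtain ⟨u1, u2, u3, u4, u5, u6, u7, u8, u9, u10⟩ := hy
    exact mem_of_RR ⟨u1.le, u2.le, u3.le, u4.le, u5.le, u6.le, u7.le, u8.le, u9.le, u10.le⟩
  refine ⟨![1 / 2, 1 / 4, 1 / 10, 1 / 10, 1 / 10, 0, 0, 0], interior_maximal hsub hU ?_⟩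
  simp [U]
  norm_num

end Pool.Agent.H537Z.EH
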