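import Mathlib
import Pool.Agent.H537Z.EH.Det
import Pool.Agent.H537Z.EH.Cnt

set_option autoImplicit false

namespace Pool.Agent.H537Z.EH

open Matrix PowerSeries

/-- series counting fixed lattice points in the dilates -/
noncomputable def FF (g : G4) : PowerSeries ℤ :=
  gf (fun m x => J A0 B0 m x ∧ LL g *ᵥ x = x)

theorem LL_inv (s : G4) (x : Fin 8 → ℤ) : LL s⁻¹ *ᵥ (LL s *ᵥ x) = x := by
  rw [Matrix.mulVec_mulVec, ← LL_mul, inv_mul_cancel, LL_one, Matrix.one_mulVec]

theorem LL_inv' (s : G4) (x : Fin 8 → ℤ) : LL s *ᵥ (LL s⁻¹ *ᵥ x) = x := by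
  rw [Matrix.mulVec_mulVec, ← LL_mul, mul_inv_cancel, LL_one, Matrix.one_mulVec]

theorem FF_conj (s r : G4) : FF (s * r * s⁻¹) = FF r := by
  ext m
  simp only [FF, gf, coeff_mk]
  have e : {x | J A0 B0 (m : ℤ) x ∧ LL (s * r * s⁻¹) *ᵥ x = x} =
      (fun y => LL s *ᵥ y) '' {x | J A0 B0 (m : ℤ) x ∧ LL r *ᵥ x = x} := by
    ext x
    simp only [Set.mem_ofPred_eq, Set.mem_image]
    rw [LL_mul, LL_mul, ← Matrix.mulVec_mulVec, ← Matrix.mulVec_mulVec]
    constructor
    · rintro ⟨h1, h2⟩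
      refine ⟨LL s⁻¹ *ᵥ x, ⟨inv_all _ _ _ h1, ?_⟩, LL_inv' s x⟩
      have := congrArg (fun y => LL s⁻¹ *ᵥ y) h2
      simpa only [LL_inv] using this
    · rintro ⟨y, ⟨h1, h2⟩, rfl⟩
      exact ⟨inv_all _ _ _ h1, by rw [LL_inv, h2]⟩
  rw [e, Set.ncard_image_of_injective]
  intro a b hab
  have := congrArg (fun y => LL s⁻¹ *ᵥ y) hab
  simpa only [LL_inv] using this

theorem FF_E : FF 1 = gf (J A0 B0) := by
  refine gf_congr ?_
  intro m x; rw [LL_one, Matrix.one_mulVec]; simp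

theorem FF_T : FF tT = gf (J AT B0) := by
  refine gf_congr ?_
  intro m x; rw [mv_T, vec_eq]; simp only [J, A0, AT, B0, true_and, and_true]; omega

theorem FF_V : FF tV = gf (J AV B0) := by
  refine gf_congr ?_
  intro m x; rw [mv_V, vec_eq]; simp only [J, A0, AV, B0, true_and, and_true]; omega

theorem FF_R : FF tR = gf (J AR B0) := by
  refine gf_congr ?_
  intro m x; rw [mv_R, vec_eq]; simp only [J, A0, AR, B0, true_and, and_true]; omega

theorem FF_C : FF tC = gf (J AC B0) := by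
  refine gf_congr ?_
  intro m x; rw [mv_C, vec_eq]; simp only [J, A0, AC, B0, true_and, and_true]; omega

/-- the equivariant series -/
noncomputable def hh (g : G4) : PowerSeries ℤ := (DD (LL g) : PowerSeries ℤ) * FF g

theorem hh_conj (s r : G4) : hh (s * r * s⁻¹) = hh r := by
  rw [hh, hh, DD_conj, FF_conj]

theorem coe_eq (p : Polynomial ℤ) :
    (p : PowerSeries ℤ) = Polynomial.coeToPowerSeries.ringHom p := rfl

theorem hh_E : hh 1 = 1 + 5 * X + 8 * X ^ 2 + 7 * X ^ 3 + 3 * X ^ 4 := by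
  have q := gfQ (A := A0) (fun _ _ _ _ _ h => h)
  rw [hh, DD_E, FF_E, coe_eq]
  simp only [map_mul, map_pow, map_sub, map_add, map_one,
    Polynomial.coeToPowerSeries.ringHom_apply, Polynomial.coe_X]
  linear_combination (1 - X) ^ 5 * q + (1 + 2 * X + 2 * X ^ 2 + X ^ 3) * gE

theorem hh_T : hh tT = 1 + X + 2 * X ^ 2 + X ^ 3 + X ^ 4 := by
  have q := gfQ (A := AT) (by intro i a x y z; simp only [AT, A0]; omega)
  rw [hh, DD_T, FF_T, coe_eq]
  simp only [map_mul, map_pow, map_sub, map_add, map_one,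
    Polynomial.coeToPowerSeries.ringHom_apply, Polynomial.coe_X]
  refine cancel (E := 1 + X) (by simp) ?_
  linear_combination (1 - X ^ 2) ^ 3 * q + (1 + 2 * X + 2 * X ^ 2 + X ^ 3) * gT

theorem hh_V : hh tV = 1 + X + 4 * X ^ 2 + 3 * X ^ 3 + 3 * X ^ 4 := by
  have q := gfQ (A := AV) (by intro i a x y z; simp only [AV, A0]; omega)
  rw [hh, DD_V, FF_V, coe_eq]
  simp only [map_mul, map_pow, map_sub, map_add, map_one,
    Polynomial.coeToPowerSeries.ringHom_apply, Polynomial.coe_X]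
  refine cancel (E := 1 + X) (by simp) ?_
  linear_combination (1 - X ^ 2) ^ 3 * q + (1 + 2 * X + 2 * X ^ 2 + X ^ 3) * gV

theorem hh_R : hh tR = 1 + 2 * X + 2 * X ^ 2 + 4 * X ^ 3 + 3 * X ^ 4 := by
  have q := gfQ (A := AR) (by intro i a x y z; simp only [AR, A0]; omega)
  rw [hh, DD_R, FF_R, coe_eq]
  simp only [map_mul, map_pow, map_sub, map_add, map_one,
    Polynomial.coeToPowerSeries.ringHom_apply, Polynomial.coe_X]
  refine cancel (E := 1 - X ^ 3) (by simp) ?_
  linear_combination (1 - X) ^ 2 * (1 - X ^ 3) ^ 2 * q + (1 + 2 * X + 2 * X ^ 2 + X ^ 3) * gR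

theorem hh_C : hh tC = 1 + 3 * X + 4 * X ^ 2 + 3 * X ^ 3 + X ^ 4 := by
  have q := gfQ (A := AC) (by intro i a x y z; simp only [AC, A0]; omega)
  rw [hh, DD_C, FF_C, coe_eq]
  simp only [map_mul, map_pow, map_sub, map_add, map_one,
    Polynomial.coeToPowerSeries.ringHom_apply, Polynomial.coe_X]
  linear_combination (1 + X) * (1 - X ^ 4) * q + (1 + X) * (1 + 2 * X + 2 * X ^ 2 + X ^ 3) * gC

theorem coeff_five (a b c d e : ℤ) (i : ℕ) :
    coeff i (C a + C b * X + C c * X ^ 2 + C d * X ^ 3 + C e * X ^ 4 : PowerSeries ℤ) =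
      if i = 0 then a else if i = 1 then b else if i = 2 then c else if i = 3 then d else
      if i = 4 then e else 0 := by
  simp only [map_add, coeff_C_mul, coeff_X_pow, coeff_X, coeff_C]
  split_ifs <;> first | omega | simp

/-- table of coefficients -/
def tab (a b c d e : ℤ) (i : ℕ) : ℤ :=
  if i = 0 then a else if i = 1 then b else if i = 2 then c else if i = 3 then d else
    if i = 4 then e else 0

theorem co_E (i : ℕ) : coeff i (hh 1) = tab 1 5 8 7 3 i := by
  rw [hh_E, tab, ← coeff_five]; simp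
theorem co_T (i : ℕ) : coeff i (hh tT) = tab 1 1 2 1 1 i := by
  rw [hh_T, tab, ← coeff_five]; simp
theorem co_V (i : ℕ) : coeff i (hh tV) = tab 1 1 4 3 3 i := by
  rw [hh_V, tab, ← coeff_five]; simp
theorem co_R (i : ℕ) : coeff i (hh tR) = tab 1 2 2 4 3 i := by
  rw [hh_R, tab, ← coeff_five]; simp
theorem co_C (i : ℕ) : coeff i (hh tC) = tab 1 3 4 3 1 i := by
  rw [hh_C, tab, ← coeff_five]; simp

end Pool.Agent.H537Z.EH
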