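import Mathlib
import Pool.Agent.H537Z.EH.Hh
import Pool.Agent.H537Z.EH.Chr
import Pool.Agent.H537Z.EH.Fix
import Pool.Agent.H537Z.EH.Geo

set_option autoImplicit false

namespace Pool.Agent.H537Z.EH

open Matrix Pointwise

theorem ch_E (i : ℕ) : ch i 1 = tab 1 5 8 7 3 i := by
  simp only [ch, tab, vals0, vals1, valsS.1, valsV.1, valsP.1, valsQ.1]
  split_ifs <;> rfl
theorem ch_T (i : ℕ) : ch i tT = tab 1 1 2 1 1 i := by
  simp only [ch, tab, vals0, vals1, valsS.2.1, valsV.2.1, valsP.2.1, valsQ.2.1]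
  split_ifs <;> rfl
theorem ch_V (i : ℕ) : ch i tV = tab 1 1 4 3 3 i := by
  simp only [ch, tab, vals0, vals1, valsS.2.2.1, valsV.2.2.1, valsP.2.2.1, valsQ.2.2.1]
  split_ifs <;> rfl
theorem ch_R (i : ℕ) : ch i tR = tab 1 2 2 4 3 i := by
  simp only [ch, tab, vals0, vals1, valsS.2.2.2.1, valsV.2.2.2.1, valsP.2.2.2.1, valsQ.2.2.2.1]
  split_ifs <;> rfl
theorem ch_C (i : ℕ) : ch i tC = tab 1 3 4 3 1 i := by
  simp only [ch, tab, vals0, vals1, valsS.2.2.2.2, valsV.2.2.2.2, valsP.2.2.2.2, valsQ.2.2.2.2]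
  split_ifs <;> rfl

theorem ch_eq (i : ℕ) (g : G4) : ch i g = PowerSeries.coeff i (hh g) := by
  obtain ⟨s, h | h | h | h | h⟩ := classes g <;> rw [h, hh_conj, (ch_tr i).conj]
  · rw [ch_E, co_E]
  · rw [ch_T, co_T]
  · rw [ch_V, co_V]
  · rw [ch_R, co_R]
  · rw [ch_C, co_C]

theorem inv_lat (g : G4) (x : Fin 8 → ℤ) (hx : (fun k => (x k : ℝ)) ∈ PP) :
    (fun k => ((rho g x) k : ℝ)) ∈ PP := by
  rw [lat_iff_one] at hx ⊢
  exact inv_all g _ _ hx

theorem set_eq (g : G4) (m : ℕ) :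
    {x : Fin 8 → ℤ | (fun k => (x k : ℝ)) ∈ (m : ℝ) • PP ∧
      (rho g).linear x + m • (rho g 0) = x} =
    {x : Fin 8 → ℤ | J A0 B0 (m : ℤ) x ∧ LL g *ᵥ x = x} := by
  ext x
  simp only [Set.mem_ofPred_eq]
  rw [lat_iff, rho_linear, rho_apply, Matrix.mulVec_zero, smul_zero, add_zero]

theorem ch_formula (i : ℕ) (g : G4) : ch i g =
    ∑ j ∈ Finset.range (i + 1),
      Polynomial.coeff ((1 - Polynomial.X) *
          Matrix.det (1 - (Polynomial.X : Polynomial ℤ) •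
            ((LinearMap.toMatrix'
              ((rho g).linear : (Fin 8 → ℤ) →ₗ[ℤ] (Fin 8 → ℤ))).map Polynomial.C))) j *
        (({x : Fin 8 → ℤ | (fun k => (x k : ℝ)) ∈ ((i - j : ℕ) : ℝ) • PP ∧
            (rho g).linear x + (i - j : ℕ) • (rho g 0) = x}.ncard : ℕ) : ℤ) := by
  rw [rho_matrix, ← DD_def, ch_eq]
  simp only [set_eq]
  exact (coeff_conv (DD (LL g))
    (fun m : ℕ => (({x : Fin 8 → ℤ | J A0 B0 (m : ℤ) x ∧ LL g *ᵥ x = x}.ncard : ℕ) : ℤ)) i).symm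

theorem tot (a b c d e : ℤ) : ∑ i ∈ Finset.range (8 + 1), ((tab a b c d e i : ℤ) : ℂ) =
    ((a + b + c + d + e : ℤ) : ℂ) := by
  simp [Finset.sum_range_succ, tab]

theorem not_perm {Y : Type} [Finite Y] [MulAction G4 Y]
    (h : ∀ g : G4, ∑ i ∈ Finset.range (8 + 1), ((ch i g : ℤ) : ℂ) =
      ((Nat.card {x : Y // g • x = x} : ℕ) : ℂ)) : False := by
  have h1 := h 1
  have h2 := h tT
  have h3 := h tR
  have h4 := h tC
  have h5 := h c2
  have h6 := h c3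
  have e5 : ∀ i, ch i c2 = tab 1 3 4 3 1 i := fun i => by rw [c2, (ch_tr i).conj, ch_C]
  have e6 : ∀ i, ch i c3 = tab 1 3 4 3 1 i := fun i => by rw [c3, (ch_tr i).conj, ch_C]
  simp only [ch_E, tot] at h1
  simp only [ch_T, tot] at h2
  simp only [ch_R, tot] at h3
  simp only [ch_C, tot] at h4
  simp only [e5, tot] at h5
  simp only [e6, tot] at h6
  have k := fix_ineq (Y := Y)
  generalize Nat.card {x : Y // (1 : G4) • x = x} = n1 at *
  generalize Nat.card {x : Y // tT • x = x} = n2 at *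
  generalize Nat.card {x : Y // tR • x = x} = n3 at *
  generalize Nat.card {x : Y // tC • x = x} = n4 at *
  generalize Nat.card {x : Y // c2 • x = x} = n5 at *
  generalize Nat.card {x : Y // c3 • x = x} = n6 at *
  norm_cast at h1 h2 h3 h4 h5 h6
  omega

end Pool.Agent.H537Z.EH
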